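import Pool.Agent.Helper23_FT.Asm

/-!
# One exceptional set for all `m`
-/

namespace Pool.Agent.FT

open Polynomial Pool.Agent.Helper79FreyD Pool.Agent.Helper65FreyD
open scoped ComplexOrder

/-- Comparison of `Nstar` for `1` and for `m`. -/
lemma nstar_one_le (m μ : ℕ) (hm : 1 ≤ m) (f : ℤ[X]) : Nstar 1 μ f ≤ m * Nstar m μ f := by
  classical
  unfold Nstar
  have hsub : extraPrimes 1 μ f ⊆
      (extraPrimes m μ f) ∪ ((extraPrimes 1 μ f).filter fun p => p ∣ m) := by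
    intro p hp
    rw [Finset.mem_union, Finset.mem_filter]
    by_cases h : p ∣ m
    · right
      exact ⟨hp, h⟩
    · left
      unfold extraPrimes at hp ⊢
      rw [Finset.mem_filter] at hp ⊢
      refine ⟨hp.1, fun h1 => ?_, hp.2.2⟩
      rcases (Nat.prime_of_mem_primeFactors hp.1).dvd_mul.mp h1 with h2 | h2
      · exact h h2
      · exact hp.2.1 (h2.mul_left _)
  have hprime : ∀ p ∈ extraPrimes 1 μ f, p.Prime := by
    intro p hp
    unfold extraPrimes at hp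
    rw [Finset.mem_filter] at hp
    exact Nat.prime_of_mem_primeFactors hp.1
  have hprime' : ∀ p ∈ extraPrimes m μ f, p.Prime := by
    intro p hp
    unfold extraPrimes at hp
    rw [Finset.mem_filter] at hp
    exact Nat.prime_of_mem_primeFactors hp.1
  have h1 : ∏ p ∈ (extraPrimes 1 μ f).filter (fun p => p ∣ m), p ≤ m := by
    apply Nat.le_of_dvd (by omega)
    apply Finset.prod_primes_dvd
    · intro p hp
      rw [Finset.mem_filter] at hp
      exact (hprime p hp.1).prime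
    · intro p hp
      rw [Finset.mem_filter] at hp
      exact hp.2
  have h2 : ∏ p ∈ extraPrimes 1 μ f, p ≤ (∏ p ∈ extraPrimes m μ f, p) *
      ∏ p ∈ (extraPrimes 1 μ f).filter (fun p => p ∣ m), p := by
    have h3 : ∏ p ∈ extraPrimes 1 μ f, p ∣ (∏ p ∈ extraPrimes m μ f, p) *
        ∏ p ∈ (extraPrimes 1 μ f).filter (fun p => p ∣ m), p := by
      apply Finset.prod_primes_dvd
      · intro p hp
        exact (hprime p hp).prime
      · intro p hp
        rcases Finset.mem_union.mp (hsub hp) with h | h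
        · exact (Finset.dvd_prod_of_mem (fun p => p) h).mul_right _
        · exact (Finset.dvd_prod_of_mem (fun p => p) h).mul_left _
    apply Nat.le_of_dvd _ h3
    apply Nat.pos_of_ne_zero
    apply mul_ne_zero
    · exact Finset.prod_ne_zero_iff.mpr fun p hp => (hprime' p hp).ne_zero
    · exact Finset.prod_ne_zero_iff.mpr fun p hp =>
        (hprime p (Finset.mem_filter.mp hp).1).ne_zero
  calc prodDisc (toQ f) * ∏ p ∈ extraPrimes 1 μ f, p
      ≤ prodDisc (toQ f) * ((∏ p ∈ extraPrimes m μ f, p) * m) :=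
        Nat.mul_le_mul_left _ (h2.trans (Nat.mul_le_mul_left _ h1))
    _ = _ := by ring

lemma one_le_nstar (m μ : ℕ) (f : ℤ[X]) : 1 ≤ Nstar m μ f := by
  rw [nstar_eq]
  exact Nat.mul_pos (one_le_prodDisc _) (one_le_rr m μ f)

/-- In the exceptional set `Nstar` is small. -/
theorem nstar_one_small (n : ℕ) (hn : 3 ≤ n) (t : ℝ) (ht : 0 < t) : ∃ C₀ : ℕ → ℝ, ∀ μ m : ℕ,
    2 ≤ m → ∀ H : ℕ, 1 ≤ H →
      ∀ a ∈ excStar m n μ (sig m n / (t * ((m : ℝ) - 1))) (C₀ m) H,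
        (Nstar 1 μ (mpoly n a) : ℝ) ≤ (H : ℝ) ^ t := by
  have hn' : (3 : ℝ) ≤ n := by exact_mod_cast hn
  have key : ∀ m : ℕ, ∃ C : ℝ, 2 ≤ m → ∀ a : Fin (n - 1) → ℤ,
    (toC (mpoly n a)).Separable →
    (∀ j ∈ Finset.Ico 1 m, (∀ p q : Fin (num m (mpoly n a).natDegree j),
      MeasureTheory.Integrable (ker m (mpoly n a) j p q)) ∧ (gram m (mpoly n a) j).PosDef) ∧
    ∀ H : ℝ, 1 ≤ H → (∀ i, |(a i : ℝ)| ≤ H ^ (n - (i : ℕ))) →
      hW m (mpoly n a) ≤ sig m n * Real.log H + C := by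
    intro m
    by_cases hm : 2 ≤ m
    · obtain ⟨C, hC⟩ := height_mpoly m n (by omega) (by omega)
      exact ⟨C, fun _ => hC⟩
    · exact ⟨0, fun h => absurd h hm⟩
  choose C' hC' using key
  refine ⟨fun m => C' m + sig m n / t * Real.log m, fun μ m hm H hH => ?_⟩
  have hH1 : (1 : ℝ) ≤ H := by exact_mod_cast hH
  have hH0 : (0 : ℝ) < H := by linarith
  have hm2 : (2 : ℝ) ≤ m := by exact_mod_cast hm
  have hm1 : (0 : ℝ) < (m : ℝ) - 1 := by linarith
  have hs := sig_pos hm hn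
  rintro a ⟨ha, hsep, hnot⟩
  have ha' : ∀ i, |(a i : ℝ)| ≤ (H : ℝ) ^ (n - (i : ℕ)) := by
    intro i
    exact_mod_cast ha i
  obtain ⟨h1, h2⟩ := hC' m hm a (toC_separable' _ hsep)
  have h3 := h2 H hH1 ha'
  by_contra hcon
  rw [not_le] at hcon
  apply hnot
  refine ⟨hsep, h1, h3.trans ?_⟩
  have hN1 : (0 : ℝ) < Nstar m μ (mpoly n a) := by
    exact_mod_cast one_le_nstar m μ (mpoly n a)
  have h6 : (H : ℝ) ^ t ≤ m * Nstar m μ (mpoly n a) := by
    refine hcon.le.trans ?_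
    exact_mod_cast nstar_one_le m μ (by omega) (mpoly n a)
  have h4 : t * Real.log H ≤ Real.log m + Real.log (Nstar m μ (mpoly n a)) := by
    rw [← Real.log_rpow hH0, ← Real.log_mul (by linarith) hN1.ne']
    exact Real.log_le_log (by positivity) h6
  have h7 : sig m n * Real.log H ≤
      sig m n / t * (Real.log m + Real.log (Nstar m μ (mpoly n a))) := by
    calc sig m n * Real.log H = sig m n / t * (t * Real.log H) := by field_simp
      _ ≤ _ := mul_le_mul_of_nonneg_left h4 (by positivity)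
  rw [Real.log_pow, Nat.cast_sub (by omega), Nat.cast_one]
  have h8 : sig m n / (t * ((m : ℝ) - 1)) *
      (((m : ℝ) - 1) * Real.log (Nstar m μ (mpoly n a))) =
      sig m n / t * Real.log (Nstar m μ (mpoly n a)) := by
    field_simp
  rw [h8]
  linarith

/-- One exceptional set for all `m`. -/
theorem final_all (hS : SStmt) (hF : FStmt) (h1 : R1Stmt) (h2 : R2Stmt) (n : ℕ) (hn : 3 ≤ n)
    (t : ℝ) (ht0 : 0 < t) : ∃ C₀ : ℕ → ℝ, ∀ μ : ℕ, 1 ≤ μ → ∀ E : ℝ,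
      max (fieldExp n) (allExp n) < E → ∃ C : ℝ, ∀ H : ℕ, 1 ≤ H →
        ({a : Fin (n - 1) → ℤ | (∀ i, |a i| ≤ (H : ℤ) ^ (n - (i : ℕ))) ∧
          (toQ (mpoly n a)).Separable ∧ ∃ m, 2 ≤ m ∧
            ¬ FreyHoldsStar m μ (sig m n / (t * (m - 1))) (C₀ m) (mpoly n a)}.ncard : ℝ) ≤
        C * (H : ℝ) ^ (E * t + (n : ℝ) * (n - 1) / μ) := by
  obtain ⟨C₀, hC₀⟩ := nstar_one_small n hn t ht0
  refine ⟨C₀, fun μ hμ E hE => ?_⟩
  have hn' : (3 : ℝ) ≤ n := by exact_mod_cast hn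
  have hμ' : (1 : ℝ) ≤ μ := by exact_mod_cast hμ
  set ν : ℝ := (n : ℝ) * (n - 1) / μ with hν
  have hν0 : 0 ≤ ν := div_nonneg (mul_nonneg (by linarith) (by linarith)) (by linarith)
  set Em : ℝ := max (fieldExp n) (allExp n) with hEm
  have hEm1 : 1 ≤ Em := (one_lt_allExp n hn).le.trans (le_max_right _ _)
  set E' : ℝ := (Em + E) / 2 with hE'
  have hE'1 : 1 ≤ E' := by linarith
  set ε : ℝ := t * ((E - Em) / 2) / (3 * t + ν + 1) with hε
  have hden : 0 < 3 * t + ν + 1 := by linarith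
  have hε0 : 0 < ε := div_pos (mul_pos ht0 (by linarith)) hden
  have hG : ∀ k, 1 ≤ k → k ≤ n → GenSet k E' := by
    intro k hk hkn
    rcases Nat.lt_or_ge k n with h | h
    · exact genSet_allExp gstStmt n (by omega) E'
        (lt_of_le_of_lt (le_max_right (fieldExp n) (allExp n)) (by linarith)) k hk h
    · have hkn' : k = n := le_antisymm hkn h
      rw [hkn']
      exact genSet_fieldExp gstStmt n hn E'
        (lt_of_le_of_lt (le_max_left (fieldExp n) (allExp n)) (by linarith))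
  obtain ⟨C, hC⟩ := bad_card hS hF h1 h2 1 n μ le_rfl (by omega) hμ E' ε hE'1 hε0 hG
  refine ⟨max C 0, fun H hH => ?_⟩
  have hH1 : (1 : ℝ) ≤ H := by exact_mod_cast hH
  have hH0 : (0 : ℝ) < H := by linarith
  have hX : 1 ≤ (H : ℝ) ^ t := Real.one_le_rpow hH1 ht0.le
  have e1 := hC H hH ((H : ℝ) ^ t) hX
  have e2 : (({a : Fin (n - 1) → ℤ | (∀ i, |a i| ≤ (H : ℤ) ^ (n - (i : ℕ))) ∧
      (toQ (mpoly n a)).Separable ∧ ∃ m, 2 ≤ m ∧
        ¬ FreyHoldsStar m μ (sig m n / (t * (m - 1))) (C₀ m) (mpoly n a)}.ncard : ℕ) : ℝ) ≤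
      (({a : Fin (n - 1) → ℤ | (∀ i, |a i| ≤ (H : ℤ) ^ (n - (i : ℕ))) ∧
      (toQ (mpoly n a)).Separable ∧
        (Nstar 1 μ (mpoly n a) : ℝ) ≤ (H : ℝ) ^ t}.ncard : ℕ) : ℝ) := by
    refine Nat.cast_le.mpr (Set.ncard_le_ncard ?_ (box_finite n H fun a ha => ha.1))
    rintro a ⟨ha, hs, m, hm, hnot⟩
    exact ⟨ha, hs, hC₀ μ m hm H hH a ⟨ha, hs, hnot⟩⟩
  refine e2.trans (e1.trans ?_)
  have e3 : ((H : ℝ) ^ t) ^ (E' + 2 * ε) * (H : ℝ) ^ ν * ((H : ℝ) ^ t * (H : ℝ) ^ ν * H) ^ ε =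
      (H : ℝ) ^ (t * (E' + 2 * ε) + ν + (t + ν + 1) * ε) := by
    have e4 : (H : ℝ) ^ t * (H : ℝ) ^ ν * H = (H : ℝ) ^ (t + ν + 1) := by
      rw [Real.rpow_add hH0, Real.rpow_add hH0, Real.rpow_one]
    rw [e4, ← Real.rpow_mul hH0.le, ← Real.rpow_mul hH0.le, ← Real.rpow_add hH0,
      ← Real.rpow_add hH0]
  have e5 : (H : ℝ) ^ (t * (E' + 2 * ε) + ν + (t + ν + 1) * ε) ≤ (H : ℝ) ^ (E * t + ν) := by
    apply Real.rpow_le_rpow_of_exponent_le hH1
    have e6 : ε * (3 * t + ν + 1) = t * ((E - Em) / 2) := by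
      rw [hε]
      field_simp
    have e7 : t * (E' + 2 * ε) + ν + (t + ν + 1) * ε = t * E' + ν + ε * (3 * t + ν + 1) := by
      ring
    rw [e7, e6, hE']
    apply le_of_eq
    ring
  have e8 : (0 : ℝ) ≤ ((H : ℝ) ^ t) ^ (E' + 2 * ε) * (H : ℝ) ^ ν *
      ((H : ℝ) ^ t * (H : ℝ) ^ ν * H) ^ ε := by positivity
  calc C * (((H : ℝ) ^ t) ^ (E' + 2 * ε) * (H : ℝ) ^ ν *
      ((H : ℝ) ^ t * (H : ℝ) ^ ν * H) ^ ε)
      ≤ max C 0 * (((H : ℝ) ^ t) ^ (E' + 2 * ε) * (H : ℝ) ^ ν *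
        ((H : ℝ) ^ t * (H : ℝ) ^ ν * H) ^ ε) :=
        mul_le_mul_of_nonneg_right (le_max_left _ _) e8
    _ ≤ max C 0 * (H : ℝ) ^ (E * t + ν) := by
        rw [e3]
        exact mul_le_mul_of_nonneg_left e5 (le_max_right _ _)

end Pool.Agent.FT
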