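import Pool.Agent.Helper23_FT.Nst
import Pool.Agent.Helper79_FreyD.Gst
import Pool.Agent.Helper79_FreyD.Last

/-!
# The count of the exceptional set
-/

namespace Pool.Agent.FT

open Polynomial Pool.Agent.Helper79FreyD Pool.Agent.Helper65FreyD

lemma one_le_typ {n : ℕ} {x : IntermediateField ℚ ℂ × ℕ} (hx : x ∈ Typ n) : 1 ≤ x.2 := by
  obtain ⟨f, _, _, rfl⟩ := hx
  exact one_le_prodDisc _

/-- The sum over the types. -/
theorem sum_types (hS : SStmt) (n : ℕ) (hn : 1 ≤ n) (E ε : ℝ) (hE : 1 ≤ E) (hε : 0 < ε)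
    (hG : ∀ k, 1 ≤ k → k ≤ n → GenSet k E) : ∃ C : ℝ, 0 < C ∧ ∀ X : ℝ, 1 ≤ X →
    ∃ T : Finset (IntermediateField ℚ ℂ × ℕ), (∀ x, x ∈ T ↔ x ∈ Typ n ∧ (x.2 : ℝ) ≤ X) ∧
      ∑ x ∈ T, X / (x.2 : ℝ) ≤ C * X ^ (E + 2 * ε) := by
  obtain ⟨C, hC, h⟩ := hS n hn E ε (by linarith) hε hG
  have h2 : (2 : ℝ) ^ (-ε) < 1 := Real.rpow_lt_one_of_one_lt_of_neg (by norm_num) (by linarith)
  have h3 : (0 : ℝ) < 2 ^ (E + ε) := Real.rpow_pos_of_pos (by norm_num) _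
  have h4 : (0 : ℝ) < 1 - 2 ^ (-ε) := by linarith
  refine ⟨C * (2 ^ (E + ε) / (1 - 2 ^ (-ε))), by positivity, fun X hX => ?_⟩
  obtain ⟨hfin, _⟩ := h X hX
  refine ⟨hfin.toFinset, fun x => by rw [Set.Finite.mem_toFinset]; rfl, ?_⟩
  have hX0 : 0 < X := by linarith
  have h5 := dyadic (fun x : IntermediateField ℚ ℂ × ℕ => x.2) C (E + ε) ε hC.le hε
    hfin.toFinset (fun x hx => by
      rw [Set.Finite.mem_toFinset] at hx
      exact one_le_typ hx.1) (fun N hN => by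
      obtain ⟨hfN, hcN⟩ := h N hN
      refine le_trans ?_ hcN
      rw [← Set.ncard_coe_finset]
      refine Nat.cast_le.mpr (Set.ncard_le_ncard ?_ hfN)
      intro x hx
      rw [Finset.mem_coe, Finset.mem_filter, Set.Finite.mem_toFinset] at hx
      exact ⟨hx.1.1, hx.2⟩) (by linarith)
  have h6 : ∀ x ∈ hfin.toFinset, X / (x.2 : ℝ) ≤
      X ^ (E + 2 * ε) * (x.2 : ℝ) ^ (-(E + ε + ε)) := by
    intro x hx
    rw [Set.Finite.mem_toFinset] at hx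
    have hx1 : (1 : ℝ) ≤ x.2 := by exact_mod_cast one_le_typ hx.1
    have hx0 : (0 : ℝ) < x.2 := by linarith
    have hx2 : (x.2 : ℝ) ≤ X := hx.2
    have e1 : (x.2 : ℝ) ^ (E + ε + ε - 1) ≤ X ^ (E + ε + ε - 1) :=
      Real.rpow_le_rpow hx0.le hx2 (by linarith)
    have e2 : X / (x.2 : ℝ) = X * ((x.2 : ℝ) ^ (E + ε + ε - 1) * (x.2 : ℝ) ^ (-(E + ε + ε))) := by
      rw [← Real.rpow_add hx0]
      have : E + ε + ε - 1 + -(E + ε + ε) = -1 := by ring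
      rw [this, Real.rpow_neg_one, div_eq_mul_inv]
    have e3 : X ^ (E + 2 * ε) = X * X ^ (E + ε + ε - 1) := by
      have : E + 2 * ε = 1 + (E + ε + ε - 1) := by ring
      rw [this, Real.rpow_add hX0, Real.rpow_one]
    rw [e2, e3]
    have e4 : (0 : ℝ) ≤ (x.2 : ℝ) ^ (-(E + ε + ε)) := by positivity
    calc X * ((x.2 : ℝ) ^ (E + ε + ε - 1) * (x.2 : ℝ) ^ (-(E + ε + ε)))
        ≤ X * (X ^ (E + ε + ε - 1) * (x.2 : ℝ) ^ (-(E + ε + ε))) := by gcongr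
      _ = _ := by ring
  refine (Finset.sum_le_sum h6).trans ?_
  rw [← Finset.mul_sum]
  have h7 : (0 : ℝ) ≤ X ^ (E + 2 * ε) := by positivity
  calc X ^ (E + 2 * ε) * ∑ x ∈ hfin.toFinset, (x.2 : ℝ) ^ (-(E + ε + ε))
      ≤ X ^ (E + 2 * ε) * (C * (2 ^ (E + ε) / (1 - 2 ^ (-ε)))) :=
        mul_le_mul_of_nonneg_left h5 h7
    _ = _ := by ring

/-- The number of polynomials with small `Nstar`. -/
theorem bad_card (hS : SStmt) (hF : FStmt) (h1 : R1Stmt) (h2 : R2Stmt) (m n μ : ℕ) (hm : 1 ≤ m)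
    (hn : 2 ≤ n) (hμ : 1 ≤ μ) (E ε : ℝ) (hE : 1 ≤ E) (hε : 0 < ε)
    (hG : ∀ k, 1 ≤ k → k ≤ n → GenSet k E) : ∃ C : ℝ, ∀ H : ℕ, 1 ≤ H → ∀ X : ℝ, 1 ≤ X →
    (({a : Fin (n - 1) → ℤ | (∀ i, |a i| ≤ (H : ℤ) ^ (n - (i : ℕ))) ∧
      (toQ (mpoly n a)).Separable ∧ (Nstar m μ (mpoly n a) : ℝ) ≤ X}.ncard : ℕ) : ℝ) ≤
      C * (X ^ (E + 2 * ε) * (H : ℝ) ^ ((n : ℝ) * (n - 1) / μ) *
        (X * (H : ℝ) ^ ((n : ℝ) * (n - 1) / μ) * H) ^ ε) := by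
  classical
  obtain ⟨CS, hCS, hS'⟩ := sum_types hS n (by omega) E ε hE hε hG
  obtain ⟨CF, hCF, hF'⟩ := hF n (by omega) ε hε
  set ν : ℝ := (n : ℝ) * (n - 1) / μ with hν
  have hn' : (2 : ℝ) ≤ n := by exact_mod_cast hn
  have hμ' : (1 : ℝ) ≤ μ := by exact_mod_cast hμ
  have hm' : (1 : ℝ) ≤ m := by exact_mod_cast hm
  have hν0 : 0 ≤ ν := div_nonneg (mul_nonneg (by linarith) (by linarith)) (by linarith)
  refine ⟨CS * 4 ^ ν * CF * (m * 4 ^ ν * 2) ^ ε, fun H hH X hX => ?_⟩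
  have hH1 : (1 : ℝ) ≤ H := by exact_mod_cast hH
  have hH0 : (0 : ℝ) < H := by linarith
  have hX0 : (0 : ℝ) < X := by linarith
  set Y : ℝ := (4 * (H : ℝ)) ^ ν with hY
  have hY1 : 1 ≤ Y := Real.one_le_rpow (by linarith) hν0
  obtain ⟨T, hT, hsum⟩ := hS' X hX
  set Bad := {a : Fin (n - 1) → ℤ | (∀ i, |a i| ≤ (H : ℤ) ^ (n - (i : ℕ))) ∧
      (toQ (mpoly n a)).Separable ∧ (Nstar m μ (mpoly n a) : ℝ) ≤ X} with hBad
  let F3 : IntermediateField ℚ ℂ × ℕ → ℕ → ℕ → Set ℤ[X] := fun x r s =>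
    Fib n x.1 (m * x.2 * r * s) (2 * H)
  let F2 : IntermediateField ℚ ℂ × ℕ → ℕ → Set ℤ[X] := fun x r =>
    ⋃ s ∈ Finset.Icc 1 ⌊Y⌋₊, F3 x r s
  let F1 : IntermediateField ℚ ℂ × ℕ → Set ℤ[X] := fun x =>
    ⋃ r ∈ Finset.Icc 1 ⌊X / (x.2 : ℝ)⌋₊, F2 x r
  have hx1 : ∀ x ∈ T, (1 : ℝ) ≤ x.2 := fun x hx => by
    exact_mod_cast one_le_typ ((hT x).mp hx).1
  set Q : ℝ := CF * (m * X * Y * (2 * H)) ^ ε with hQ
  have hQ0 : 0 ≤ Q := by positivity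
  have c3 : ∀ x ∈ T, ∀ r ∈ Finset.Icc 1 ⌊X / (x.2 : ℝ)⌋₊, ∀ s ∈ Finset.Icc 1 ⌊Y⌋₊,
      (F3 x r s).Finite ∧ ((F3 x r s).ncard : ℝ) ≤ Q := by
    intro x hx r hr s hs
    rw [Finset.mem_Icc] at hr hs
    have g1 := hx1 x hx
    have g0 : (0 : ℝ) < x.2 := by linarith
    have g2 : (r : ℝ) * x.2 ≤ X := by
      rw [← le_div_iff₀ g0]
      exact (Nat.cast_le.mpr hr.2).trans (Nat.floor_le (by positivity))
    have g3 : (s : ℝ) ≤ Y := (Nat.cast_le.mpr hs.2).trans (Nat.floor_le (by linarith))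
    have g4 : 1 ≤ m * x.2 * r * s := by
      have g5 : 1 ≤ x.2 := one_le_typ ((hT x).mp hx).1
      have := Nat.mul_le_mul (Nat.mul_le_mul (Nat.mul_le_mul hm g5) hr.1) hs.1
      simpa using this
    obtain ⟨f1, f2⟩ := hF' x.1 (m * x.2 * r * s) (2 * H) g4 (by linarith)
    refine ⟨f1, f2.trans ?_⟩
    rw [hQ]
    have g6 : ((m * x.2 * r * s : ℕ) : ℝ) ≤ m * X * Y := by
      push_cast
      calc (m : ℝ) * x.2 * r * s = m * (r * x.2) * s := by ring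
        _ ≤ m * X * Y := by gcongr
    gcongr
  have c2 : ∀ x ∈ T, ∀ r ∈ Finset.Icc 1 ⌊X / (x.2 : ℝ)⌋₊,
      (F2 x r).Finite ∧ ((F2 x r).ncard : ℝ) ≤ Y * Q := by
    intro x hx r hr
    refine ⟨(Finset.finite_toSet _).biUnion fun s hs => (c3 x hx r hr s hs).1, ?_⟩
    have g1 : ((F2 x r).ncard : ℝ) ≤ ∑ s ∈ Finset.Icc 1 ⌊Y⌋₊, ((F3 x r s).ncard : ℝ) := by
      exact_mod_cast Finset.set_ncard_biUnion_le (Finset.Icc 1 ⌊Y⌋₊) fun s => F3 x r s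
    have g2 := Finset.sum_le_sum fun s hs => (c3 x hx r hr s hs).2
    rw [Finset.sum_const, Nat.card_Icc, Nat.add_sub_cancel, nsmul_eq_mul] at g2
    refine g1.trans (g2.trans ?_)
    have g3 := Nat.floor_le (show 0 ≤ Y by linarith)
    gcongr
  have c1 : ∀ x ∈ T, (F1 x).Finite ∧ ((F1 x).ncard : ℝ) ≤ X / (x.2 : ℝ) * (Y * Q) := by
    intro x hx
    refine ⟨(Finset.finite_toSet _).biUnion fun r hr => (c2 x hx r hr).1, ?_⟩
    have g1 : ((F1 x).ncard : ℝ) ≤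
        ∑ r ∈ Finset.Icc 1 ⌊X / (x.2 : ℝ)⌋₊, ((F2 x r).ncard : ℝ) := by
      exact_mod_cast Finset.set_ncard_biUnion_le (Finset.Icc 1 ⌊X / (x.2 : ℝ)⌋₊) fun r => F2 x r
    have g2 := Finset.sum_le_sum fun r hr => (c2 x hx r hr).2
    rw [Finset.sum_const, Nat.card_Icc, Nat.add_sub_cancel, nsmul_eq_mul] at g2
    refine g1.trans (g2.trans ?_)
    have g3 := Nat.floor_le (show 0 ≤ X / (x.2 : ℝ) by positivity)
    gcongr
  have hinj : Set.InjOn (mpoly n) Bad := by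
    intro a _ b _ hab
    funext i
    rw [← coeff_mpoly n a i, ← coeff_mpoly n b i, hab]
  have hmaps : Set.MapsTo (mpoly n) Bad (⋃ x ∈ T, F1 x) := by
    rintro a ⟨ha, hsep, hN⟩
    have ha' : ∀ i, |(a i : ℝ)| ≤ (H : ℝ) ^ (n - (i : ℕ)) := by
      intro i
      exact_mod_cast ha i
    set f := mpoly n a with hf
    have hmon : f.Monic := monic_mpoly n hn a
    have hdeg : f.natDegree = n := natDegree_mpoly n hn a
    have hRB : RB (2 * H) f := fun z hz => root_le n hn a H hH0 ha' z hz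
    have hd0 : f.discr ≠ 0 := h2 f hmon hsep
    have hD1 : (1 : ℝ) ≤ prodDisc (toQ f) := by exact_mod_cast one_le_prodDisc _
    have hr1 : (1 : ℝ) ≤ rr m μ f := by exact_mod_cast one_le_rr m μ f
    rw [nstar_eq] at hN
    push_cast at hN
    have hDX : (prodDisc (toQ f) : ℝ) ≤ X := by nlinarith
    have hdle := h1 n f hmon hdeg (2 * H) (by linarith) hRB
    have htY : (tt m μ f : ℝ) ≤ Y := by
      have g1 := tt_pow m μ f hd0
      have g2 : ((tt m μ f : ℕ) : ℝ) ^ μ ≤ (4 * (H : ℝ)) ^ (n * (n - 1)) := by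
        have g3 : ((f.discr.natAbs : ℕ) : ℝ) = |(f.discr : ℝ)| := by
          rw [Nat.cast_natAbs, Int.cast_abs]
        have g4 : (2 * (2 * (H : ℝ))) = 4 * H := by ring
        rw [g4, ← g3] at hdle
        refine le_trans ?_ hdle
        exact_mod_cast g1
      have g5 : (0 : ℝ) ≤ tt m μ f := Nat.cast_nonneg _
      have g6 : (((tt m μ f : ℕ) : ℝ) ^ μ) ^ (1 / (μ : ℝ)) = tt m μ f := by
        rw [← Real.rpow_natCast, ← Real.rpow_mul g5, mul_one_div_cancel (by linarith),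
          Real.rpow_one]
      have g7 : ((4 * (H : ℝ)) ^ (n * (n - 1))) ^ (1 / (μ : ℝ)) = Y := by
        rw [hY, ← Real.rpow_natCast, ← Real.rpow_mul (by linarith)]
        congr 1
        rw [hν, Nat.cast_mul, Nat.cast_sub (by omega), Nat.cast_one]
        ring
      rw [← g6, ← g7]
      exact Real.rpow_le_rpow (by positivity) g2 (by positivity)
    have hxT : (spl f, prodDisc (toQ f)) ∈ T := (hT _).mpr ⟨⟨f, hmon, hdeg, rfl⟩, hDX⟩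
    refine Set.mem_iUnion₂.mpr ⟨_, hxT, ?_⟩
    refine Set.mem_iUnion₂.mpr ⟨rr m μ f, ?_, ?_⟩
    · rw [Finset.mem_Icc]
      refine ⟨one_le_rr m μ f, Nat.le_floor ?_⟩
      rw [le_div_iff₀ (by linarith)]
      show (rr m μ f : ℝ) * ((prodDisc (toQ f) : ℕ) : ℝ) ≤ X
      linarith
    refine Set.mem_iUnion₂.mpr ⟨tt m μ f, ?_, ?_⟩
    · rw [Finset.mem_Icc]
      exact ⟨one_le_tt m μ f, Nat.le_floor htY⟩
    exact ⟨hmon, hdeg, nextCoeff_mpoly n hn a, hRB, hsep, rfl,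
      fun p hp hpd => prime_dvd m μ f hd0 p hp hpd⟩
  have hfin : (⋃ x ∈ T, F1 x).Finite :=
    (Finset.finite_toSet _).biUnion fun x hx => (c1 x hx).1
  have e1 : (Bad.ncard : ℝ) ≤ ((⋃ x ∈ T, F1 x).ncard : ℝ) :=
    Nat.cast_le.mpr (Set.ncard_le_ncard_of_injOn _ hmaps hinj hfin)
  have e2 : ((⋃ x ∈ T, F1 x).ncard : ℝ) ≤ ∑ x ∈ T, ((F1 x).ncard : ℝ) := by
    exact_mod_cast Finset.set_ncard_biUnion_le T fun x => F1 x
  have e3 := Finset.sum_le_sum fun x hx => (c1 x hx).2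
  rw [← Finset.sum_mul] at e3
  refine e1.trans (e2.trans (e3.trans ?_))
  have hYQ : 0 ≤ Y * Q := by positivity
  refine (mul_le_mul_of_nonneg_right hsum hYQ).trans (le_of_eq ?_)
  have hY' : Y = 4 ^ ν * (H : ℝ) ^ ν := by
    rw [hY, Real.mul_rpow (by norm_num) hH0.le]
  have hQ' : Q = CF * ((m * 4 ^ ν * 2) ^ ε * (X * (H : ℝ) ^ ν * H) ^ ε) := by
    have g1 : (m : ℝ) * X * Y * (2 * H) = (m * 4 ^ ν * 2) * (X * (H : ℝ) ^ ν * H) := by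
      rw [hY']
      ring
    rw [hQ, g1, Real.mul_rpow (by positivity) (by positivity)]
  rw [hQ', hY']
  ring

lemma one_lt_allExp (n : ℕ) (hn : 3 ≤ n) : 1 < allExp n := by
  have hn' : (3 : ℝ) ≤ n := by exact_mod_cast hn
  unfold allExp
  rw [lt_min_iff]
  constructor
  · have : (1 : ℝ) / n ≤ 1 / 3 := by
      apply one_div_le_one_div_of_le (by norm_num) hn'
    linarith
  · have hr : 2 ≤ Nat.clog 2 n := by
      have h1 : 1 < Nat.clog 2 n := by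
        rw [Nat.lt_clog_iff_pow_lt (by norm_num)]
        omega
      omega
    have hr' : (2 : ℝ) ≤ Nat.clog 2 n := by exact_mod_cast hr
    nlinarith

/-- The exceptional set is small. -/
theorem final_star (hS : SStmt) (hF : FStmt) (h1 : R1Stmt) (h2 : R2Stmt) (m n : ℕ) (hm : 2 ≤ m)
    (hn : 3 ≤ n) : ∃ C₀ : ℝ, ∀ μ : ℕ, 1 ≤ μ → ∀ κ : ℝ, 0 < κ → ∀ E : ℝ,
      max (fieldExp n) (allExp n) < E → ∃ C : ℝ, ∀ H : ℕ, 1 ≤ H →
        ({a : Fin (n - 1) → ℤ | (∀ i, |a i| ≤ (H : ℤ) ^ (n - (i : ℕ))) ∧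
          (toQ (mpoly n a)).Separable ∧ ¬ FreyHoldsStar m μ κ C₀ (mpoly n a)}.ncard : ℝ) ≤
        C * (H : ℝ) ^ (E * (sig m n / (κ * (m - 1))) + (n : ℝ) * (n - 1) / μ) := by
  obtain ⟨C₀, hC₀⟩ := nstar_le m n hm (by omega)
  refine ⟨C₀, fun μ hμ κ hκ E hE => ?_⟩
  have hm' : (2 : ℝ) ≤ m := by exact_mod_cast hm
  have hn' : (3 : ℝ) ≤ n := by exact_mod_cast hn
  have hμ' : (1 : ℝ) ≤ μ := by exact_mod_cast hμ
  have hm1 : (0 : ℝ) < (m : ℝ) - 1 := by linarith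
  set t : ℝ := sig m n / (κ * ((m : ℝ) - 1)) with ht
  have ht0 : 0 < t := div_pos (sig_pos hm hn) (by positivity)
  set ν : ℝ := (n : ℝ) * (n - 1) / μ with hν
  have hν0 : 0 ≤ ν := div_nonneg (mul_nonneg (by linarith) (by linarith)) (by linarith)
  set Em : ℝ := max (fieldExp n) (allExp n) with hEm
  have hEm1 : 1 ≤ Em := (one_lt_allExp n hn).le.trans (le_max_right _ _)
  set E' : ℝ := (Em + E) / 2 with hE'
  have hE'1 : 1 ≤ E' := by linarith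
  set ε : ℝ := t * ((E - Em) / 2) / (3 * t + ν + 1) with hε
  have hden : 0 < 3 * t + ν + 1 := by linarith
  have hε0 : 0 < ε := div_pos (mul_pos ht0 (by linarith)) hden
  have hG : ∀ k, 1 ≤ k → k ≤ n → GenSet k E' := by
    intro k hk hkn
    rcases Nat.lt_or_ge k n with h | h
    · exact genSet_allExp gstStmt n (by omega) E'
        (lt_of_le_of_lt (le_max_right (fieldExp n) (allExp n)) (by linarith)) k hk h
    · have hkn' : k = n := le_antisymm hkn h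
      rw [hkn']
      exact genSet_fieldExp gstStmt n hn E'
        (lt_of_le_of_lt (le_max_left (fieldExp n) (allExp n)) (by linarith))
  obtain ⟨C, hC⟩ := bad_card hS hF h1 h2 m n μ (by omega) (by omega) hμ E' ε hE'1 hε0 hG
  refine ⟨max C 0, fun H hH => ?_⟩
  have hH1 : (1 : ℝ) ≤ H := by exact_mod_cast hH
  have hH0 : (0 : ℝ) < H := by linarith
  have hX : 1 ≤ (H : ℝ) ^ t := Real.one_le_rpow hH1 ht0.le
  have e1 := hC H hH ((H : ℝ) ^ t) hX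
  have e2 : (({a : Fin (n - 1) → ℤ | (∀ i, |a i| ≤ (H : ℤ) ^ (n - (i : ℕ))) ∧
      (toQ (mpoly n a)).Separable ∧ ¬ FreyHoldsStar m μ κ C₀ (mpoly n a)}.ncard : ℕ) : ℝ) ≤
      (({a : Fin (n - 1) → ℤ | (∀ i, |a i| ≤ (H : ℤ) ^ (n - (i : ℕ))) ∧
      (toQ (mpoly n a)).Separable ∧
        (Nstar m μ (mpoly n a) : ℝ) ≤ (H : ℝ) ^ t}.ncard : ℕ) : ℝ) := by
    refine Nat.cast_le.mpr (Set.ncard_le_ncard ?_ (box_finite n H fun a ha => ha.1))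
    rintro a ⟨ha, hs, hnot⟩
    exact ⟨ha, hs, hC₀ μ κ hκ H hH a ⟨ha, hs, hnot⟩⟩
  refine e2.trans (e1.trans ?_)
  have e3 : ((H : ℝ) ^ t) ^ (E' + 2 * ε) * (H : ℝ) ^ ν * ((H : ℝ) ^ t * (H : ℝ) ^ ν * H) ^ ε =
      (H : ℝ) ^ (t * (E' + 2 * ε) + ν + (t + ν + 1) * ε) := by
    have e4 : (H : ℝ) ^ t * (H : ℝ) ^ ν * H = (H : ℝ) ^ (t + ν + 1) := by
      rw [Real.rpow_add hH0, Real.rpow_add hH0, Real.rpow_one]
    rw [e4, ← Real.rpow_mul hH0.le, ← Real.rpow_mul hH0.le, ← Real.rpow_add hH0,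
      ← Real.rpow_add hH0]
  have e5 : (H : ℝ) ^ (t * (E' + 2 * ε) + ν + (t + ν + 1) * ε) ≤ (H : ℝ) ^ (E * t + ν) := by
    apply Real.rpow_le_rpow_of_exponent_le hH1
    have e6 : ε * (3 * t + ν + 1) = t * ((E - Em) / 2) := by
      rw [hε]
      field_simp
    have e7 : t * (E' + 2 * ε) + ν + (t + ν + 1) * ε = t * E' + ν + ε * (3 * t + ν + 1) := by
      ring
    rw [e7, e6, hE']
    apply le_of_eq
    ring
  have e8 : (0 : ℝ) ≤ ((H : ℝ) ^ t) ^ (E' + 2 * ε) * (H : ℝ) ^ ν *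
      ((H : ℝ) ^ t * (H : ℝ) ^ ν * H) ^ ε := by positivity
  calc C * (((H : ℝ) ^ t) ^ (E' + 2 * ε) * (H : ℝ) ^ ν *
      ((H : ℝ) ^ t * (H : ℝ) ^ ν * H) ^ ε)
      ≤ max C 0 * (((H : ℝ) ^ t) ^ (E' + 2 * ε) * (H : ℝ) ^ ν *
        ((H : ℝ) ^ t * (H : ℝ) ^ ν * H) ^ ε) :=
        mul_le_mul_of_nonneg_right (le_max_left _ _) e8
    _ ≤ max C 0 * (H : ℝ) ^ (E * t + ν) := by
        rw [e3]
        exact mul_le_mul_of_nonneg_left e5 (le_max_right _ _)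

end Pool.Agent.FT
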