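import Pool.Agent.Helper65_FreyD.All

/-!
# Frey's inequality with a divisor of the conductor
-/

namespace Pool.Agent.FT

open Polynomial Pool.Agent.Helper79FreyD Pool.Agent.Helper65FreyD
open scoped ComplexOrder

/-- The primes `p` which do not divide `m` times the product of the absolute discriminants of the
fields `ℚ[x] / (q)`, `q` the irreducible factors of `f`, and whose exponent in the discriminant of
the polynomial `f` is positive and less than `μ`. -/
noncomputable def extraPrimes (m μ : ℕ) (f : ℤ[X]) : Finset ℕ :=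
  f.discr.natAbs.primeFactors.filter fun p =>
    ¬ p ∣ m * prodDisc (toQ f) ∧ f.discr.natAbs.factorization p < μ

/-- The product of the absolute discriminants of the fields `ℚ[x] / (q)`, `q` the irreducible
factors of `f`, and of the primes in `extraPrimes m μ f`. -/
noncomputable def Nstar (m μ : ℕ) (f : ℤ[X]) : ℕ :=
  prodDisc (toQ f) * ∏ p ∈ extraPrimes m μ f, p

/-- The polynomial `f` has no multiple root, the integrals in the Gram matrices converge
(absolutely), the Gram matrices are positive definite, and the height is at most `κ` times the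
logarithm of the `(m - 1)`-st power of `Nstar m μ f`, plus `C`. -/
def FreyHoldsStar (m μ : ℕ) (κ C : ℝ) (f : ℤ[X]) : Prop :=
  (toQ f).Separable ∧
    (∀ j ∈ Finset.Ico 1 m, (∀ p q : Fin (num m f.natDegree j),
      MeasureTheory.Integrable (ker m f j p q)) ∧ (gram m f j).PosDef) ∧
    hW m f ≤ κ * Real.log ((Nstar m μ f : ℝ) ^ (m - 1)) + C

/-- The field generated by the complex roots of `f`. -/
noncomputable def spl (f : ℤ[X]) : IntermediateField ℚ ℂ := IntermediateField.adjoin ℚ ((toQ f).rootSet ℂ)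

/-- The pairs of the field generated by the roots and of the discriminant. -/
def Typ (n : ℕ) : Set (IntermediateField ℚ ℂ × ℕ) :=
  {x | ∃ f : ℤ[X], f.Monic ∧ f.natDegree = n ∧ x = (spl f, prodDisc (toQ f))}

/-- Statement S: the number of types. -/
def SStmt : Prop := ∀ (n : ℕ), 1 ≤ n → ∀ E ε : ℝ, 0 ≤ E → 0 < ε →
  (∀ k, 1 ≤ k → k ≤ n → GenSet k E) → ∃ C : ℝ, 0 < C ∧ ∀ X : ℝ, 1 ≤ X →
    {x | x ∈ Typ n ∧ (x.2 : ℝ) ≤ X}.Finite ∧
      (({x | x ∈ Typ n ∧ (x.2 : ℝ) ≤ X}.ncard : ℕ) : ℝ) ≤ C * X ^ (E + ε)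

/-- The polynomials with given splitting field and given primes in the discriminant. -/
def Fib (n : ℕ) (L : IntermediateField ℚ ℂ) (w : ℕ) (B : ℝ) : Set ℤ[X] :=
  {f | f.Monic ∧ f.natDegree = n ∧ f.nextCoeff = 0 ∧ RB B f ∧ (toQ f).Separable ∧ spl f = L ∧
    ∀ p : ℕ, p.Prime → (p : ℤ) ∣ f.discr → p ∣ w}

/-- Statement F: the fibres. -/
def FStmt : Prop := ∀ (n : ℕ), 1 ≤ n → ∀ ε : ℝ, 0 < ε → ∃ C : ℝ, 0 < C ∧
  ∀ (L : IntermediateField ℚ ℂ) (w : ℕ) (B : ℝ), 1 ≤ w → 1 ≤ B →
    (Fib n L w B).Finite ∧ (((Fib n L w B).ncard : ℕ) : ℝ) ≤ C * ((w : ℝ) * B) ^ ε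

/-- Statement R1: the size of the discriminant. -/
def R1Stmt : Prop := ∀ (n : ℕ) (f : ℤ[X]), f.Monic → f.natDegree = n → ∀ B : ℝ, 1 ≤ B →
  RB B f → |(f.discr : ℝ)| ≤ (2 * B) ^ (n * (n - 1))

/-- Statement R2: the discriminant is not zero. -/
def R2Stmt : Prop := ∀ f : ℤ[X], f.Monic → (toQ f).Separable → f.discr ≠ 0

/-- Statement R3: the discriminant is divisible by the differences of the roots. -/
def R3Stmt : Prop := ∀ (R : Type) [CommRing R] [IsDomain R] (f : ℤ[X]) (n : ℕ) (θ : Fin n → R),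
  f.map (Int.castRingHom R) = ∏ i, (X - C (θ i)) → ∀ i j : Fin n, i ≠ j →
    (θ i - θ j) ∣ (f.discr : R)

end Pool.Agent.FT
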