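import Pool.Agent.Helper23_FT.Nst
import Pool.Agent.Helper79_FreyD.Gst
import Pool.Agent.Helper79_FreyD.Last

/-!
# Field discriminants: one exceptional set for all `m`
-/

namespace Pool.Agent.FT

open Polynomial Pool.Agent.Helper79FreyD Pool.Agent.Helper65FreyD
open scoped ComplexOrder

/-- In the exceptional set the discriminant is small. -/
theorem prodDisc_small (n : ℕ) (hn : 3 ≤ n) : ∃ C₀ : ℕ → ℝ, ∀ t : ℝ, 0 < t → ∀ m : ℕ,
    2 ≤ m → ∀ H : ℕ, 1 ≤ H → ∀ a : Fin (n - 1) → ℤ,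
      (∀ i, |a i| ≤ (H : ℤ) ^ (n - (i : ℕ))) → (toQ (mpoly n a)).Separable →
      ¬ FreyHoldsSep m (sig m n / (t * ((m : ℝ) - 1))) (C₀ m) (mpoly n a) →
        (prodDisc (toQ (mpoly n a)) : ℝ) ≤ (H : ℝ) ^ t := by
  have key : ∀ m : ℕ, ∃ C : ℝ, 2 ≤ m → ∀ a : Fin (n - 1) → ℤ,
    (toC (mpoly n a)).Separable →
    (∀ j ∈ Finset.Ico 1 m, (∀ p q : Fin (num m (mpoly n a).natDegree j),
      MeasureTheory.Integrable (ker m (mpoly n a) j p q)) ∧ (gram m (mpoly n a) j).PosDef) ∧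
    ∀ H : ℝ, 1 ≤ H → (∀ i, |(a i : ℝ)| ≤ H ^ (n - (i : ℕ))) →
      hW m (mpoly n a) ≤ sig m n * Real.log H + C := by
    intro m
    by_cases hm : 2 ≤ m
    · obtain ⟨C, hC⟩ := height_mpoly m n (by omega) (by omega)
      exact ⟨C, fun _ => hC⟩
    · exact ⟨0, fun h => absurd h hm⟩
  choose C' hC' using key
  refine ⟨C', fun t ht m hm H hH a ha hsep hnot => ?_⟩
  have hH1 : (1 : ℝ) ≤ H := by exact_mod_cast hH
  have hH0 : (0 : ℝ) < H := by linarith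
  have hm2 : (2 : ℝ) ≤ m := by exact_mod_cast hm
  have hm1 : (0 : ℝ) < (m : ℝ) - 1 := by linarith
  have hs := sig_pos hm hn
  have ha' : ∀ i, |(a i : ℝ)| ≤ (H : ℝ) ^ (n - (i : ℕ)) := by
    intro i
    exact_mod_cast ha i
  obtain ⟨h1, h2⟩ := hC' m hm a (toC_separable' _ hsep)
  have h3 := h2 H hH1 ha'
  by_contra hcon
  rw [not_le] at hcon
  apply hnot
  refine ⟨hsep, h1, h3.trans (add_le_add_left ?_ _)⟩
  have h4 : t * Real.log H ≤ Real.log (prodDisc (toQ (mpoly n a))) := by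
    rw [← Real.log_rpow hH0]
    exact Real.log_le_log (by positivity) hcon.le
  have h7 : sig m n * Real.log H ≤ sig m n / t * Real.log (prodDisc (toQ (mpoly n a))) := by
    calc sig m n * Real.log H = sig m n / t * (t * Real.log H) := by field_simp
      _ ≤ _ := mul_le_mul_of_nonneg_left h4 (by positivity)
  rw [Real.log_pow, Nat.cast_sub (by omega), Nat.cast_one]
  have h8 : sig m n / (t * ((m : ℝ) - 1)) *
      (((m : ℝ) - 1) * Real.log (prodDisc (toQ (mpoly n a)))) =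
      sig m n / t * Real.log (prodDisc (toQ (mpoly n a))) := by
    field_simp
  rw [h8]
  exact h7

/-- The number of irreducible polynomials with small discriminant. -/
theorem irr_count (n : ℕ) (hn : 3 ≤ n) (t : ℝ) (ht : 0 < t) (htn : t ≤ n) (E : ℝ)
    (hE : fieldExp n < E) : ∃ C : ℝ, ∀ H : ℕ, 1 ≤ H →
      ({a : Fin (n - 1) → ℤ | (∀ i, |a i| ≤ (H : ℤ) ^ (n - (i : ℕ))) ∧
        Irreducible (toQ (mpoly n a)) ∧
          (prodDisc (toQ (mpoly n a)) : ℝ) ≤ (H : ℝ) ^ t}.ncard : ℝ) ≤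
        C * (H : ℝ) ^ ((n : ℝ) - 1 + (E - 1 / 2) * t) := by
  obtain ⟨C, hC, hbad⟩ := bad_card' (n := n) (by omega) ((half_lt_fieldExp n hn).trans hE)
    (show (0 : ℝ) ≤ n by positivity) (genSet_fieldExp gstStmt n hn E hE)
    (Helper43Frey.ball_full n (by omega))
  refine ⟨C, fun H hH => ?_⟩
  have hH1 : (1 : ℝ) ≤ H := by exact_mod_cast hH
  have hH0 : (0 : ℝ) < H := by linarith
  have hN : 1 ≤ (H : ℝ) ^ t := Real.one_le_rpow hH1 ht.le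
  obtain ⟨hfin, hcard⟩ := hbad H ((H : ℝ) ^ t) hH1 hN (Real.rpow_le_rpow_of_exponent_le hH1 htn)
  have h1 : ({a : Fin (n - 1) → ℤ | (∀ i, |a i| ≤ (H : ℤ) ^ (n - (i : ℕ))) ∧
      Irreducible (toQ (mpoly n a)) ∧
        (prodDisc (toQ (mpoly n a)) : ℝ) ≤ (H : ℝ) ^ t}.ncard : ℝ) ≤
      (bad n H ((H : ℝ) ^ t)).ncard := by
    refine Nat.cast_le.mpr (Set.ncard_le_ncard ?_ hfin)
    rintro a ⟨ha, hirr, hD⟩
    have hfact : Fact (Irreducible (toQ (mpoly n a))) := ⟨hirr⟩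
    refine ⟨fun i => by exact_mod_cast ha i, hfact, ?_⟩
    rw [prodDisc_irr ((monic_mpoly n (by omega) a).map _) hirr, dq_toQ] at hD
    exact hD
  refine h1.trans (hcard.trans (le_of_eq ?_))
  rw [← Real.rpow_mul hH0.le, mul_assoc, ← Real.rpow_natCast, ← Real.rpow_add hH0,
    Nat.cast_sub (by omega), Nat.cast_one]
  congr 2
  ring

/-- The number of reducible polynomials with small discriminant. -/
theorem red_count (n : ℕ) (hn : 3 ≤ n) (t : ℝ) (ht : 0 < t) (E : ℝ) (hE : allExp n < E) :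
    ∃ C : ℝ, ∀ H : ℕ, 1 ≤ H →
      ({a : Fin (n - 1) → ℤ | (∀ i, |a i| ≤ (H : ℤ) ^ (n - (i : ℕ))) ∧
        ¬ Irreducible (toQ (mpoly n a)) ∧
          (prodDisc (toQ (mpoly n a)) : ℝ) ≤ (H : ℝ) ^ t}.ncard : ℝ) ≤
        C * (H : ℝ) ^ ((n : ℝ) - 1 + E * t) := by
  have hA := allExp_nonneg n (by omega)
  obtain ⟨C, hC, hP⟩ := pr_all n ((allExp n + E) / 2) ((E - allExp n) / 2) (by linarith)
    (by linarith) (genSet_allExp gstStmt n (by omega) _ (by linarith))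
  have e3 : (allExp n + E) / 2 + (E - allExp n) / 2 = E := by ring
  rw [e3] at hP
  refine ⟨C * 2 ^ (n - 1), fun H hH => ?_⟩
  have hH1 : (1 : ℝ) ≤ H := by exact_mod_cast hH
  have hH0 : (0 : ℝ) < H := by linarith
  have hN : 1 ≤ (H : ℝ) ^ t := Real.one_le_rpow hH1 ht.le
  obtain ⟨hfin, hcard⟩ := hP (2 * H) ((H : ℝ) ^ t) (by linarith) hN 0
  set S : Set (Fin (n - 1) → ℤ) := {a | (∀ i, |a i| ≤ (H : ℤ) ^ (n - (i : ℕ))) ∧
    ¬ Irreducible (toQ (mpoly n a)) ∧ (prodDisc (toQ (mpoly n a)) : ℝ) ≤ (H : ℝ) ^ t} with hS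
  have hinj : Set.InjOn (mpoly n) S := by
    intro a _ b _ hab
    funext i
    rw [← coeff_mpoly n a i, ← coeff_mpoly n b i, hab]
  have hmaps : Set.MapsTo (mpoly n) S
      {f | f ∈ M n (2 * H) 0 ((H : ℝ) ^ t) ∧ ¬ Irreducible (toQ f)} := by
    rintro a ⟨ha, hirr, hD⟩
    have ha' : ∀ i, |(a i : ℝ)| ≤ (H : ℝ) ^ (n - (i : ℕ)) := by
      intro i
      exact_mod_cast ha i
    exact ⟨⟨monic_mpoly n (by omega) a, natDegree_mpoly n (by omega) a,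
      fun z hz => root_le n (by omega) a H hH0 ha' z hz, nextCoeff_mpoly n (by omega) a, hD⟩, hirr⟩
  have h1 : (S.ncard : ℝ) ≤
      ({f | f ∈ M n (2 * H) 0 ((H : ℝ) ^ t) ∧ ¬ Irreducible (toQ f)}.ncard : ℝ) := by
    exact_mod_cast Set.ncard_le_ncard_of_injOn _ hmaps hinj hfin
  refine h1.trans (hcard.trans (le_of_eq ?_))
  rw [mul_pow, ← Real.rpow_mul hH0.le, Real.rpow_add hH0]
  have h2 : (H : ℝ) ^ ((n : ℝ) - 1) = (H : ℝ) ^ (n - 1) := by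
    rw [← Real.rpow_natCast, Nat.cast_sub (by omega), Nat.cast_one]
  rw [h2, mul_comm t]
  ring

/-- One exceptional set for all `m`. -/
theorem fd_all (n : ℕ) (hn : 3 ≤ n) : ∃ C₀ : ℕ → ℝ, ∀ t : ℝ, 0 < t → t ≤ n →
    (∀ E : ℝ, fieldExp n < E → ∃ C : ℝ, ∀ H : ℕ, 1 ≤ H →
      ({a : Fin (n - 1) → ℤ | (∀ i, |a i| ≤ (H : ℤ) ^ (n - (i : ℕ))) ∧
        Irreducible (toQ (mpoly n a)) ∧ ∃ m, 2 ≤ m ∧
          ¬ FreyHoldsSep m (sig m n / (t * (m - 1))) (C₀ m) (mpoly n a)}.ncard : ℝ) ≤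
      C * (H : ℝ) ^ ((n : ℝ) - 1 + (E - 1 / 2) * t)) ∧
    (∀ E : ℝ, allExp n < E → ∃ C : ℝ, ∀ H : ℕ, 1 ≤ H →
      ({a : Fin (n - 1) → ℤ | (∀ i, |a i| ≤ (H : ℤ) ^ (n - (i : ℕ))) ∧
        (toQ (mpoly n a)).Separable ∧ ∃ m, 2 ≤ m ∧
          ¬ FreyHoldsSep m (sig m n / (t * (m - 1))) (C₀ m) (mpoly n a)}.ncard : ℝ) ≤
      C * (H : ℝ) ^ ((n : ℝ) - 1 + E * t)) := by
  obtain ⟨C₀, hC₀⟩ := prodDisc_small n hn
  refine ⟨C₀, fun t ht htn => ⟨fun E hE => ?_, fun E hE => ?_⟩⟩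
  · obtain ⟨C, hC⟩ := irr_count n hn t ht htn E hE
    refine ⟨C, fun H hH => le_trans ?_ (hC H hH)⟩
    refine Nat.cast_le.mpr (Set.ncard_le_ncard ?_ (box_finite n H fun a ha => ha.1))
    rintro a ⟨ha, hi, m, hm, hnot⟩
    exact ⟨ha, hi, hC₀ t ht m hm H hH a ha hi.separable hnot⟩
  · have hE2 : fieldExp n < E + 1 / 2 :=
      lt_of_le_of_lt (fieldExp_le n (by omega)) (by linarith)
    obtain ⟨D₁, hD₁⟩ := irr_count n hn t ht htn (E + 1 / 2) hE2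
    obtain ⟨D₂, hD₂⟩ := red_count n hn t ht E hE
    refine ⟨D₁ + D₂, fun H hH => ?_⟩
    have e1 := hD₁ H hH
    have e2 := hD₂ H hH
    rw [add_sub_cancel_right] at e1
    set S₁ : Set (Fin (n - 1) → ℤ) := {a | (∀ i, |a i| ≤ (H : ℤ) ^ (n - (i : ℕ))) ∧
      Irreducible (toQ (mpoly n a)) ∧ (prodDisc (toQ (mpoly n a)) : ℝ) ≤ (H : ℝ) ^ t} with hS₁
    set S₂ : Set (Fin (n - 1) → ℤ) := {a | (∀ i, |a i| ≤ (H : ℤ) ^ (n - (i : ℕ))) ∧
      ¬ Irreducible (toQ (mpoly n a)) ∧ (prodDisc (toQ (mpoly n a)) : ℝ) ≤ (H : ℝ) ^ t} with hS₂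
    have f1 : S₁.Finite := box_finite n H fun a ha => ha.1
    have f2 : S₂.Finite := box_finite n H fun a ha => ha.1
    have hsub : {a : Fin (n - 1) → ℤ | (∀ i, |a i| ≤ (H : ℤ) ^ (n - (i : ℕ))) ∧
        (toQ (mpoly n a)).Separable ∧ ∃ m, 2 ≤ m ∧
          ¬ FreyHoldsSep m (sig m n / (t * (m - 1))) (C₀ m) (mpoly n a)} ⊆ S₁ ∪ S₂ := by
      rintro a ⟨ha, hsep, m, hm, hnot⟩
      have hD := hC₀ t ht m hm H hH a ha hsep hnot
      by_cases hi : Irreducible (toQ (mpoly n a))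
      · exact Or.inl ⟨ha, hi, hD⟩
      · exact Or.inr ⟨ha, hi, hD⟩
    have h3 : (({a : Fin (n - 1) → ℤ | (∀ i, |a i| ≤ (H : ℤ) ^ (n - (i : ℕ))) ∧
        (toQ (mpoly n a)).Separable ∧ ∃ m, 2 ≤ m ∧
          ¬ FreyHoldsSep m (sig m n / (t * (m - 1))) (C₀ m) (mpoly n a)}.ncard : ℕ) : ℝ) ≤
        (S₁.ncard : ℝ) + (S₂.ncard : ℝ) := by
      exact_mod_cast (Set.ncard_le_ncard hsub (f1.union f2)).trans (Set.ncard_union_le _ _)
    calc _ ≤ (S₁.ncard : ℝ) + (S₂.ncard : ℝ) := h3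
      _ ≤ _ := add_le_add e1 e2
      _ = _ := by ring

end Pool.Agent.FT
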