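import Mathlib

/-!
# Counting ideals with prescribed prime factors
-/

namespace Pool.Agent.FT

open NumberField Module

lemma geo_le (r : ℝ) (h0 : 0 ≤ r) (h1 : r < 1) (L : ℕ) :
    ∑ k ∈ Finset.range L, r ^ k ≤ (1 - r)⁻¹ := by
  have h2 : 0 < 1 - r := by linarith
  have h3 : (∑ k ∈ Finset.range L, r ^ k) * (1 - r) = 1 - r ^ L := by
    rw [geom_sum_mul_neg]
  rw [← one_div, le_div_iff₀ h2, h3]
  linarith [pow_nonneg h0 L]

section

variable {K : Type} [Field K] [NumberField K]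

/-- The nonzero ideals of norm at most `X`, all of whose prime divisors are in `S`. -/
def IS (S : Finset (Ideal (𝓞 K))) (X : ℝ) : Set (Ideal (𝓞 K)) :=
  {I | I ≠ ⊥ ∧ (∀ P : Ideal (𝓞 K), P.IsPrime → I ≤ P → P ∈ S) ∧ (Ideal.absNorm I : ℝ) ≤ X}

lemma one_le_absNorm (I : Ideal (𝓞 K)) (hI : I ≠ ⊥) : 1 ≤ Ideal.absNorm I :=
  Nat.one_le_iff_ne_zero.mpr fun h => hI (Ideal.absNorm_eq_zero_iff.mp h)

lemma two_le_absNorm (P : Ideal (𝓞 K)) (hP : P.IsPrime) (h0 : P ≠ ⊥) : 2 ≤ Ideal.absNorm P := by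
  have h1 := one_le_absNorm P h0
  have h2 : Ideal.absNorm P ≠ 1 := fun h => hP.ne_top (Ideal.absNorm_eq_one_iff.mp h)
  omega

/-- The Euler factor. -/
noncomputable def ef (η : ℝ) (P : Ideal (𝓞 K)) : ℝ := (1 - (Ideal.absNorm P : ℝ) ^ (-η))⁻¹

lemma rpow_neg_lt_one {η : ℝ} (hη : 0 < η) {x : ℝ} (hx : 2 ≤ x) : x ^ (-η) < 1 :=
  Real.rpow_lt_one_of_one_lt_of_neg (by linarith) (by linarith)

lemma ef_pos {η : ℝ} (hη : 0 < η) (P : Ideal (𝓞 K)) (hP : P.IsPrime) (h0 : P ≠ ⊥) :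
    0 < ef η P := by
  have h2 : (2 : ℝ) ≤ Ideal.absNorm P := by exact_mod_cast two_le_absNorm P hP h0
  have := rpow_neg_lt_one hη h2
  unfold ef
  exact inv_pos.mpr (by linarith)

theorem is_card (η : ℝ) (hη : 0 < η) (S : Finset (Ideal (𝓞 K)))
    (hS : ∀ P ∈ S, P.IsPrime ∧ P ≠ ⊥) : ∀ X : ℝ, 0 ≤ X →
    (IS S X).Finite ∧ ((IS S X).ncard : ℝ) ≤ X ^ η * ∏ P ∈ S, ef η P := by
  classical
  induction S using Finset.induction_on with
  | empty =>
    intro X hX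
    have hsub : IS (∅ : Finset (Ideal (𝓞 K))) X ⊆ {⊤} := by
      rintro I ⟨h1, h2, h3⟩
      rw [Set.mem_singleton_iff]
      by_contra hcon
      obtain ⟨M, hM, hIM⟩ := Ideal.exists_le_maximal I hcon
      exact absurd (h2 M hM.isPrime hIM) (Finset.notMem_empty _)
    refine ⟨(Set.finite_singleton _).subset hsub, ?_⟩
    rw [Finset.prod_empty, mul_one]
    by_cases h : 1 ≤ X
    · have h1 : ((IS (∅ : Finset (Ideal (𝓞 K))) X).ncard : ℝ) ≤ 1 := by
        have := Set.ncard_le_ncard hsub (Set.finite_singleton _)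
        rw [Set.ncard_singleton] at this
        exact_mod_cast this
      exact h1.trans (Real.one_le_rpow h hη.le)
    · have h1 : IS (∅ : Finset (Ideal (𝓞 K))) X = ∅ := by
        rw [Set.eq_empty_iff_forall_notMem]
        rintro I ⟨h1, h2, h3⟩
        have : (1 : ℝ) ≤ Ideal.absNorm I := by exact_mod_cast one_le_absNorm I h1
        linarith
      rw [h1, Set.ncard_empty, Nat.cast_zero]
      exact Real.rpow_nonneg hX _
  | insert P S hPS ih =>
    intro X hX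
    have ih' := ih fun Q hQ => hS Q (Finset.mem_insert_of_mem hQ)
    obtain ⟨hP, hP0⟩ := hS P (Finset.mem_insert_self P S)
    have hPirr : Irreducible P := (Ideal.prime_of_isPrime hP0 hP).irreducible
    set p : ℝ := (Ideal.absNorm P : ℝ) with hp
    have hp2 : (2 : ℝ) ≤ p := by
      rw [hp]
      exact_mod_cast two_le_absNorm P hP hP0
    set L : ℕ := ⌊X⌋₊ + 1 with hL
    have hsub : IS (insert P S) X ⊆
        ⋃ k ∈ Finset.range L, (fun J => P ^ k * J) '' IS S (X / p ^ k) := by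
      rintro I ⟨h1, h2, h3⟩
      obtain ⟨k, J, hJ, hI⟩ := WfDvdMonoid.max_power_factor (a₀ := I) (by
        intro h
        exact h1 h) hPirr
      have hJ0 : J ≠ ⊥ := by
        rintro rfl
        exact h1 (by rw [hI, Ideal.mul_bot])
      have hnorm : (Ideal.absNorm I : ℝ) = p ^ k * (Ideal.absNorm J : ℝ) := by
        rw [hI, map_mul, map_pow]
        push_cast
        rfl
      have hJ1 : (1 : ℝ) ≤ Ideal.absNorm J := by exact_mod_cast one_le_absNorm J hJ0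
      have hpk : (0 : ℝ) < p ^ k := by positivity
      have hk : k < L := by
        rw [hL, Nat.lt_succ_iff]
        apply Nat.le_floor
        have h4 : (k : ℝ) ≤ 2 ^ k := by exact_mod_cast (Nat.lt_two_pow_self (n := k)).le
        have h5 : (2 : ℝ) ^ k ≤ p ^ k := by gcongr
        nlinarith
      refine Set.mem_iUnion₂.mpr ⟨k, Finset.mem_range.mpr hk, J, ⟨hJ0, ?_, ?_⟩, hI.symm⟩
      · intro Q hQ hJQ
        have h6 : I ≤ Q := by
          rw [hI]
          exact Ideal.mul_le_right.trans hJQ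
        rcases Finset.mem_insert.mp (h2 Q hQ h6) with h | h
        · exfalso
          rw [h] at hJQ
          exact hJ (Ideal.dvd_iff_le.mpr hJQ)
        · exact h
      · rw [le_div_iff₀ hpk, mul_comm, ← hnorm]
        exact h3
    have hXk : ∀ k : ℕ, 0 ≤ X / p ^ k := fun k => by positivity
    have hfin : (⋃ k ∈ Finset.range L, (fun J => P ^ k * J) '' IS S (X / p ^ k)).Finite :=
      (Finset.finite_toSet _).biUnion fun k _ => ((ih' _ (hXk k)).1).image _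
    refine ⟨hfin.subset hsub, ?_⟩
    have hr0 : (0 : ℝ) ≤ p ^ (-η) := Real.rpow_nonneg (by linarith) _
    have hr1 : p ^ (-η) < 1 := rpow_neg_lt_one hη hp2
    have hprod : (0 : ℝ) ≤ ∏ Q ∈ S, ef η Q := Finset.prod_nonneg fun Q hQ =>
      (ef_pos hη Q (hS Q (Finset.mem_insert_of_mem hQ)).1
        (hS Q (Finset.mem_insert_of_mem hQ)).2).le
    have h1 : ((IS (insert P S) X).ncard : ℝ) ≤
        ∑ k ∈ Finset.range L, (((fun J => P ^ k * J) '' IS S (X / p ^ k)).ncard : ℝ) := by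
      exact_mod_cast (Set.ncard_le_ncard hsub hfin).trans
        (Finset.set_ncard_biUnion_le (Finset.range L)
          fun k => (fun J => P ^ k * J) '' IS S (X / p ^ k))
    have h2 : ∀ k ∈ Finset.range L,
        (((fun J => P ^ k * J) '' IS S (X / p ^ k)).ncard : ℝ) ≤
          X ^ η * (∏ Q ∈ S, ef η Q) * (p ^ (-η)) ^ k := by
      intro k _
      obtain ⟨f1, c1⟩ := ih' _ (hXk k)
      have h3 : (((fun J => P ^ k * J) '' IS S (X / p ^ k)).ncard : ℝ) ≤
          ((IS S (X / p ^ k)).ncard : ℝ) := by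
        exact Nat.cast_le.mpr (Set.ncard_image_le f1)
      refine h3.trans (c1.trans (le_of_eq ?_))
      rw [Real.div_rpow hX (by positivity), Real.rpow_neg (by linarith), inv_pow,
        ← Real.rpow_natCast, ← Real.rpow_mul (by linarith), ← Real.rpow_natCast (p ^ η),
        ← Real.rpow_mul (by linarith), mul_comm η]
      ring
    refine h1.trans ((Finset.sum_le_sum h2).trans ?_)
    rw [← Finset.mul_sum, Finset.prod_insert hPS]
    have h4 := geo_le (p ^ (-η)) hr0 hr1 L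
    have h5 : ef η P = (1 - p ^ (-η))⁻¹ := rfl
    rw [h5]
    calc X ^ η * (∏ Q ∈ S, ef η Q) * ∑ k ∈ Finset.range L, (p ^ (-η)) ^ k
        ≤ X ^ η * (∏ Q ∈ S, ef η Q) * (1 - p ^ (-η))⁻¹ :=
          mul_le_mul_of_nonneg_left h4 (mul_nonneg (Real.rpow_nonneg hX η) hprod)
      _ = _ := by ring

/-- The product of the norms of the primes dividing `w`. -/
lemma prod_absNorm_le (w : ℕ) (hw : 1 ≤ w) (S : Finset (Ideal (𝓞 K)))
    (hS : ∀ P ∈ S, P.IsPrime ∧ P ≠ ⊥ ∧ (w : 𝓞 K) ∈ P) :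
    ∏ P ∈ S, Ideal.absNorm P ≤ w ^ finrank ℚ K := by
  have h1 : ∏ P ∈ S, P ∣ Ideal.span {(w : 𝓞 K)} := by
    apply Finset.prod_primes_dvd
    · intro P hP
      exact Ideal.prime_of_isPrime (hS P hP).2.1 (hS P hP).1
    · intro P hP
      rw [Ideal.dvd_iff_le, Ideal.span_singleton_le_iff_mem]
      exact (hS P hP).2.2
  have h2 := Ideal.absNorm_dvd_absNorm_of_le (Ideal.dvd_iff_le.mp h1)
  rw [map_prod, Ideal.absNorm_span_natCast, RingOfIntegers.rank] at h2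
  exact Nat.le_of_dvd (by positivity) h2

end

/-- The Euler product is small. -/
theorem ef_prod (N : ℕ) (η δ : ℝ) (hη : 0 < η) (hδ : 0 < δ) : ∃ C : ℝ, 0 < C ∧
    ∀ (K : Type) [Field K] [NumberField K], finrank ℚ K ≤ N → ∀ w : ℕ, 1 ≤ w →
    ∀ S : Finset (Ideal (𝓞 K)), (∀ P ∈ S, P.IsPrime ∧ P ≠ ⊥ ∧ (w : 𝓞 K) ∈ P) →
      ∏ P ∈ S, ef η P ≤ C * (w : ℝ) ^ δ := by
  classical
  -- the case `N = 0` is trivial
  set δ' : ℝ := δ / (N + 1) with hδ'
  have hδ'0 : 0 < δ' := by positivity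
  have h2δ : (0 : ℝ) < 1 - 2 ^ (-δ') := by
    have := rpow_neg_lt_one hδ'0 (le_refl (2 : ℝ))
    linarith
  have hlim := tendsto_rpow_neg_atTop hη
  have hev := (hlim.eventually (gt_mem_nhds h2δ))
  rw [Filter.eventually_atTop] at hev
  obtain ⟨X₀, hX₀⟩ := hev
  set M₀ : ℕ := ⌈X₀⌉₊ with hM₀
  set M : ℕ := M₀.factorial with hM
  have hM1 : 1 ≤ M := Nat.one_le_iff_ne_zero.mpr (Nat.factorial_ne_zero _)
  have h21 : (0 : ℝ) < 1 - 2 ^ (-η) := by
    have := rpow_neg_lt_one hη (le_refl (2 : ℝ))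
    linarith
  set a : ℝ := Real.logb 2 ((1 - 2 ^ (-η))⁻¹) with ha
  have ha2 : (2 : ℝ) ^ a = (1 - 2 ^ (-η))⁻¹ :=
    Real.rpow_logb (by norm_num) (by norm_num) (inv_pos.mpr h21)
  have ha0 : 0 ≤ a := by
    apply Real.logb_nonneg (by norm_num)
    rw [one_le_inv₀ h21]
    have : (0 : ℝ) < 2 ^ (-η) := Real.rpow_pos_of_pos (by norm_num) _
    linarith
  refine ⟨((M : ℝ) ^ N) ^ a, by positivity, fun K _ _ hK w hw S hS => ?_⟩
  have hw1 : (1 : ℝ) ≤ w := by exact_mod_cast hw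
  have hnp : ∀ P ∈ S, (2 : ℝ) ≤ Ideal.absNorm P := fun P hP => by
    exact_mod_cast two_le_absNorm P (hS P hP).1 (hS P hP).2.1
  have hfac : ∀ P ∈ S, ef η P ≤
      (if Ideal.absNorm P ≤ M₀ then (Ideal.absNorm P : ℝ) ^ a else 1) *
        (Ideal.absNorm P : ℝ) ^ δ' := by
    intro P hP
    have h2 := hnp P hP
    have h1 : (1 : ℝ) ≤ (Ideal.absNorm P : ℝ) ^ δ' := Real.one_le_rpow (by linarith) hδ'0.le
    unfold ef
    split_ifs with h
    · have h3 : (Ideal.absNorm P : ℝ) ^ (-η) ≤ 2 ^ (-η) :=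
        Real.rpow_le_rpow_of_nonpos (by norm_num) h2 (by linarith)
      have h4 : (1 - (Ideal.absNorm P : ℝ) ^ (-η))⁻¹ ≤ (1 - 2 ^ (-η))⁻¹ := by
        apply inv_anti₀ h21
        linarith
      have h5 : (2 : ℝ) ^ a ≤ (Ideal.absNorm P : ℝ) ^ a :=
        Real.rpow_le_rpow (by norm_num) h2 ha0
      rw [← ha2] at h4
      have h6 : (0 : ℝ) ≤ (Ideal.absNorm P : ℝ) ^ a := by positivity
      calc _ ≤ (Ideal.absNorm P : ℝ) ^ a * 1 := by linarith
        _ ≤ _ := by gcongr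
    · rw [not_le] at h
      have h3 : X₀ ≤ (Ideal.absNorm P : ℝ) := by
        have h4 : ((M₀ : ℕ) : ℝ) < Ideal.absNorm P := by exact_mod_cast h
        exact (Nat.le_ceil X₀).trans h4.le
      have h4 := hX₀ _ h3
      rw [one_mul]
      have h5 : (2 : ℝ) ^ (-δ') ≤ 1 - (Ideal.absNorm P : ℝ) ^ (-η) := by linarith
      have h6 : (0 : ℝ) < 2 ^ (-δ') := Real.rpow_pos_of_pos (by norm_num) _
      calc (1 - (Ideal.absNorm P : ℝ) ^ (-η))⁻¹ ≤ ((2 : ℝ) ^ (-δ'))⁻¹ := inv_anti₀ h6 h5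
        _ = 2 ^ δ' := by rw [Real.rpow_neg (by norm_num), inv_inv]
        _ ≤ _ := Real.rpow_le_rpow (by norm_num) h2 hδ'0.le
  have hefpos : ∀ P ∈ S, 0 ≤ ef η P := fun P hP => (ef_pos hη P (hS P hP).1 (hS P hP).2.1).le
  refine (Finset.prod_le_prod hefpos hfac).trans ?_
  rw [Finset.prod_mul_distrib]
  have hpart1 : ∏ P ∈ S, (if Ideal.absNorm P ≤ M₀ then (Ideal.absNorm P : ℝ) ^ a else 1) ≤
      ((M : ℝ) ^ N) ^ a := by
    rw [← Finset.prod_filter, Real.finsetProd_rpow _ _ (fun P _ => by positivity)]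
    have h3 := prod_absNorm_le M hM1 (S.filter fun P => Ideal.absNorm P ≤ M₀) (by
      intro P hP
      rw [Finset.mem_filter] at hP
      refine ⟨(hS P hP.1).1, (hS P hP.1).2.1, ?_⟩
      have h4 : Ideal.absNorm P ∣ M :=
        Nat.dvd_factorial (one_le_absNorm P (hS P hP.1).2.1) hP.2
      obtain ⟨q, hq⟩ := h4
      rw [hq, Nat.cast_mul]
      exact Ideal.mul_mem_right _ _ (Ideal.absNorm_mem P))
    have h4 : M ^ finrank ℚ K ≤ M ^ N := Nat.pow_le_pow_right hM1 hK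
    apply Real.rpow_le_rpow (by positivity) _ ha0
    exact_mod_cast h3.trans h4
  have hpart2 : ∏ P ∈ S, (Ideal.absNorm P : ℝ) ^ δ' ≤ (w : ℝ) ^ δ := by
    rw [Real.finsetProd_rpow _ _ (fun P _ => by positivity)]
    have h3 := prod_absNorm_le w hw S hS
    have h4 : w ^ finrank ℚ K ≤ w ^ N := Nat.pow_le_pow_right hw hK
    have h5 : (∏ P ∈ S, (Ideal.absNorm P : ℝ)) ≤ (w : ℝ) ^ N := by exact_mod_cast h3.trans h4
    calc (∏ P ∈ S, (Ideal.absNorm P : ℝ)) ^ δ' ≤ ((w : ℝ) ^ N) ^ δ' :=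
          Real.rpow_le_rpow (by positivity) h5 hδ'0.le
      _ = (w : ℝ) ^ (N * δ') := by rw [← Real.rpow_natCast, ← Real.rpow_mul (by linarith)]
      _ ≤ (w : ℝ) ^ δ := by
          apply Real.rpow_le_rpow_of_exponent_le hw1
          rw [hδ', mul_div_assoc', div_le_iff₀ (by positivity)]
          nlinarith
  have h0 : (0 : ℝ) ≤ ∏ P ∈ S, (Ideal.absNorm P : ℝ) ^ δ' :=
    Finset.prod_nonneg fun P _ => by positivity
  have h0' : (0 : ℝ) ≤ ((M : ℝ) ^ N) ^ a := by positivity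
  exact mul_le_mul hpart1 hpart2 h0 h0'

end Pool.Agent.FT
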