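import Pool.Agent.Helper23_FT.Defs

/-!
# The primes with a large exponent in the discriminant
-/

namespace Pool.Agent.FT

open Polynomial Pool.Agent.Helper79FreyD Pool.Agent.Helper65FreyD

/-- The product of the primes of exponent less than `μ`. -/
noncomputable def rr (m μ : ℕ) (f : ℤ[X]) : ℕ := ∏ p ∈ extraPrimes m μ f, p

/-- The other primes. -/
noncomputable def otherPrimes (m μ : ℕ) (f : ℤ[X]) : Finset ℕ :=
  f.discr.natAbs.primeFactors.filter fun p =>
    ¬ p ∣ m * prodDisc (toQ f) ∧ μ ≤ f.discr.natAbs.factorization p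

/-- Their product. -/
noncomputable def tt (m μ : ℕ) (f : ℤ[X]) : ℕ := ∏ p ∈ otherPrimes m μ f, p

lemma one_le_rr (m μ : ℕ) (f : ℤ[X]) : 1 ≤ rr m μ f := by
  unfold rr
  refine Nat.one_le_iff_ne_zero.mpr (Finset.prod_ne_zero_iff.mpr ?_)
  intro p hp
  unfold extraPrimes at hp
  rw [Finset.mem_filter] at hp
  exact (Nat.prime_of_mem_primeFactors hp.1).ne_zero

lemma one_le_tt (m μ : ℕ) (f : ℤ[X]) : 1 ≤ tt m μ f := by
  unfold tt
  refine Nat.one_le_iff_ne_zero.mpr (Finset.prod_ne_zero_iff.mpr ?_)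
  intro p hp
  unfold otherPrimes at hp
  rw [Finset.mem_filter] at hp
  exact (Nat.prime_of_mem_primeFactors hp.1).ne_zero

lemma tt_pow (m μ : ℕ) (f : ℤ[X]) (hf : f.discr ≠ 0) : tt m μ f ^ μ ≤ f.discr.natAbs := by
  have h0 : f.discr.natAbs ≠ 0 := Int.natAbs_ne_zero.mpr hf
  have h1 : tt m μ f ^ μ ∣ f.discr.natAbs := by
    unfold tt
    rw [← Finset.prod_pow]
    have h2 : ∏ p ∈ otherPrimes m μ f, p ^ μ ∣
        ∏ p ∈ otherPrimes m μ f, p ^ (f.discr.natAbs.factorization p) := by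
      apply Finset.prod_dvd_prod_of_dvd
      intro p hp
      unfold otherPrimes at hp
      rw [Finset.mem_filter] at hp
      exact pow_dvd_pow p hp.2.2
    refine h2.trans ?_
    have h3 : ∏ p ∈ otherPrimes m μ f, p ^ (f.discr.natAbs.factorization p) ∣
        ∏ p ∈ f.discr.natAbs.primeFactors, p ^ (f.discr.natAbs.factorization p) := by
      apply Finset.prod_dvd_prod_of_subset
      exact Finset.filter_subset _ _
    have h4 := Nat.prod_factorization_pow_eq_self h0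
    rw [Finsupp.prod, Nat.support_factorization] at h4
    rwa [h4] at h3
  exact Nat.le_of_dvd (Nat.pos_of_ne_zero h0) h1

lemma prime_dvd (m μ : ℕ) (f : ℤ[X]) (hf : f.discr ≠ 0) (p : ℕ) (hp : p.Prime)
    (hpd : (p : ℤ) ∣ f.discr) : p ∣ m * prodDisc (toQ f) * rr m μ f * tt m μ f := by
  have h0 : f.discr.natAbs ≠ 0 := Int.natAbs_ne_zero.mpr hf
  have h1 : p ∈ f.discr.natAbs.primeFactors :=
    Nat.mem_primeFactors.mpr ⟨hp, Int.natCast_dvd.mp hpd, h0⟩
  by_cases h2 : p ∣ m * prodDisc (toQ f)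
  · exact (h2.mul_right _).mul_right _
  · by_cases h3 : f.discr.natAbs.factorization p < μ
    · have h4 : p ∈ extraPrimes m μ f := by
        unfold extraPrimes
        rw [Finset.mem_filter]
        exact ⟨h1, h2, h3⟩
      exact ((Finset.dvd_prod_of_mem (fun p => p) h4).mul_left _).mul_right _
    · have h4 : p ∈ otherPrimes m μ f := by
        unfold otherPrimes
        rw [Finset.mem_filter]
        exact ⟨h1, h2, not_lt.mp h3⟩
      exact (Finset.dvd_prod_of_mem (fun p => p) h4).mul_left _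

lemma nstar_eq (m μ : ℕ) (f : ℤ[X]) : Nstar m μ f = prodDisc (toQ f) * rr m μ f := rfl

/-- The exceptional set. -/
def excStar (m n μ : ℕ) (κ C₀ : ℝ) (H : ℕ) : Set (Fin (n - 1) → ℤ) :=
  {a | (∀ i, |a i| ≤ (H : ℤ) ^ (n - (i : ℕ))) ∧ (toQ (mpoly n a)).Separable ∧
    ¬ FreyHoldsStar m μ κ C₀ (mpoly n a)}

/-- In the exceptional set `Nstar` is small. -/
theorem nstar_le (m n : ℕ) (hm : 2 ≤ m) (hn : 2 ≤ n) :
    ∃ C₀ : ℝ, ∀ μ : ℕ, ∀ κ : ℝ, 0 < κ → ∀ H : ℕ, 1 ≤ H → ∀ a ∈ excStar m n μ κ C₀ H,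
      (Nstar m μ (mpoly n a) : ℝ) ≤ (H : ℝ) ^ (sig m n / (κ * ((m : ℝ) - 1))) := by
  obtain ⟨C₀, hC₀⟩ := height_mpoly m n (by omega) hn
  refine ⟨C₀, fun μ κ hκ H hH => ?_⟩
  have hH1 : (1 : ℝ) ≤ H := by exact_mod_cast hH
  have hH0 : (0 : ℝ) < H := by linarith
  have hm1 : (0 : ℝ) < (m : ℝ) - 1 := by
    have : (2 : ℝ) ≤ m := by exact_mod_cast hm
    linarith
  set t : ℝ := sig m n / (κ * ((m : ℝ) - 1)) with ht
  rintro a ⟨ha, hsep, hnot⟩
  have ha' : ∀ i, |(a i : ℝ)| ≤ (H : ℝ) ^ (n - (i : ℕ)) := by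
    intro i
    exact_mod_cast ha i
  obtain ⟨h1, h2⟩ := hC₀ a (toC_separable' _ hsep)
  have h3 := h2 H hH1 ha'
  by_contra hcon
  rw [not_le] at hcon
  apply hnot
  refine ⟨hsep, h1, h3.trans (add_le_add_left ?_ _)⟩
  have h4 : t * Real.log H ≤ Real.log (Nstar m μ (mpoly n a)) := by
    rw [← Real.log_rpow hH0]
    exact Real.log_le_log (by positivity) hcon.le
  have h5 : sig m n = κ * ((m : ℝ) - 1) * t := by
    rw [ht]
    field_simp
  rw [Real.log_pow, Nat.cast_sub (by omega), Nat.cast_one, h5]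
  calc κ * ((m : ℝ) - 1) * t * Real.log H = κ * ((m : ℝ) - 1) * (t * Real.log H) := by ring
    _ ≤ κ * ((m : ℝ) - 1) * Real.log (Nstar m μ (mpoly n a)) := by gcongr
    _ = _ := by ring

lemma sig_pos {m n : ℕ} (hm : 2 ≤ m) (hn : 3 ≤ n) : 0 < sig m n := by
  have hm' : (2 : ℝ) ≤ m := by exact_mod_cast hm
  have hn' : (3 : ℝ) ≤ n := by exact_mod_cast hn
  have hnn : ∀ j ∈ Finset.Ico 1 m, 0 ≤
      ∑ i ∈ Finset.range (num m n j), ((n : ℝ) * j / m - i - 1) := by
    intro j _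
    apply Finset.sum_nonneg
    intro i hi
    rw [Finset.mem_range] at hi
    have := num_lt (m := m) (n := n) (j := j) (p := i) (by omega) hi
    linarith
  have hmem : m - 1 ∈ Finset.Ico 1 m := Finset.mem_Ico.mpr ⟨by omega, by omega⟩
  unfold sig
  refine lt_of_lt_of_le ?_ (Finset.single_le_sum hnn hmem)
  have hnum : 1 ≤ num m n (m - 1) := by
    unfold num
    rw [Nat.one_le_div_iff (by omega)]
    have h1 : 3 * (m - 1) ≤ n * (m - 1) := Nat.mul_le_mul_right _ hn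
    omega
  have h0 : 0 ∈ Finset.range (num m n (m - 1)) := Finset.mem_range.mpr hnum
  have hnn2 : ∀ i ∈ Finset.range (num m n (m - 1)),
      0 ≤ ((n : ℝ) * ((m - 1 : ℕ) : ℝ) / m - i - 1) := by
    intro i hi
    rw [Finset.mem_range] at hi
    have := num_lt (m := m) (n := n) (j := m - 1) (p := i) (by omega) hi
    linarith
  refine lt_of_lt_of_le ?_ (Finset.single_le_sum hnn2 h0)
  rw [Nat.cast_sub (by omega), Nat.cast_one, Nat.cast_zero, sub_zero, sub_pos,
    lt_div_iff₀ (by linarith)]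
  nlinarith

end Pool.Agent.FT
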