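import Pool.Agent.Helper23_FT.Ideals
import Pool.Agent.Helper79_FreyD.OK

/-!
# Algebraic integers with small conjugates and prescribed prime divisors
-/

namespace Pool.Agent.FT

open NumberField Module Pool.Agent.Helper79FreyD

section

variable {K : Type} [Field K] [NumberField K]

variable (K) in
/-- The nonzero algebraic integers all of whose conjugates have absolute value at most `B` and all
of whose prime divisors divide `w`. -/
def SU (w : ℕ) (B : ℝ) : Set (𝓞 K) :=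
  {x | x ≠ 0 ∧ x ∈ small K B ∧ ∀ P : Ideal (𝓞 K), P.IsPrime → x ∈ P → (w : 𝓞 K) ∈ P}

lemma abs_norm_eq (x : 𝓞 K) :
    ((Algebra.norm ℤ x).natAbs : ℝ) = ∏ φ : K →ₐ[ℚ] ℂ, ‖φ (x : K)‖ := by
  have h1 := Algebra.norm_eq_prod_embeddings ℚ ℂ (x : K)
  have h2 := congrArg norm h1
  rw [norm_prod] at h2
  rw [← h2, ← Algebra.coe_norm_int]
  simp [Nat.cast_natAbs]

lemma norm_pos' (x : 𝓞 K) (hx : x ≠ 0) (φ : K →ₐ[ℚ] ℂ) : 0 < ‖φ (x : K)‖ := by
  rw [norm_pos_iff]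
  intro h
  apply hx
  have h1 : (x : K) = 0 := (map_eq_zero φ).mp h
  exact RingOfIntegers.ext h1

lemma one_le_prod (x : 𝓞 K) (hx : x ≠ 0) : 1 ≤ ∏ φ : K →ₐ[ℚ] ℂ, ‖φ (x : K)‖ := by
  rw [← abs_norm_eq]
  have h1 : (Algebra.norm ℤ x).natAbs ≠ 0 := by
    rw [Int.natAbs_ne_zero]
    exact Algebra.norm_ne_zero_iff.mpr hx
  exact_mod_cast Nat.one_le_iff_ne_zero.mpr h1

lemma small_algHom {B : ℝ} {x : 𝓞 K} (hx : x ∈ small K B) (φ : K →ₐ[ℚ] ℂ) : ‖φ (x : K)‖ ≤ B :=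
  hx φ.toRingHom

/-- The vector of the integral parts of the logarithms. -/
noncomputable def cell (x : 𝓞 K) : (K →ₐ[ℚ] ℂ) → ℤ := fun φ => ⌊Real.logb 2 ‖φ (x : K)‖⌋

open Classical in
lemma cell_mem (B : ℝ) (L : ℕ) (hB : B ≤ 2 ^ L) (x : 𝓞 K) (hx0 : x ≠ 0)
    (hx : x ∈ small K B) : cell x ∈ Fintype.piFinset fun _ : K →ₐ[ℚ] ℂ =>
      Finset.Icc (-((finrank ℚ K * L : ℕ) : ℤ)) (L : ℤ) := by
  rw [Fintype.mem_piFinset]
  intro φ
  have hpos := norm_pos' x hx0 φ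
  have hle : ∀ ψ : K →ₐ[ℚ] ℂ, ‖ψ (x : K)‖ ≤ 2 ^ L := fun ψ => (small_algHom hx ψ).trans hB
  have hcard : (Finset.univ : Finset (K →ₐ[ℚ] ℂ)).card = finrank ℚ K := by
    rw [Finset.card_univ, AlgHom.card]
  rw [Finset.mem_Icc]
  constructor
  · unfold cell
    rw [Int.le_floor, Real.le_logb_iff_rpow_le (by norm_num) hpos]
    have h1 := one_le_prod x hx0
    rw [← Finset.mul_prod_erase _ _ (Finset.mem_univ φ)] at h1
    have h2 : ∏ ψ ∈ Finset.univ.erase φ, ‖ψ (x : K)‖ ≤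
        ∏ _ψ ∈ (Finset.univ : Finset (K →ₐ[ℚ] ℂ)).erase φ, (2 : ℝ) ^ L :=
      Finset.prod_le_prod (fun ψ _ => norm_nonneg _) fun ψ _ => hle ψ
    rw [Finset.prod_const] at h2
    have h3 : ((2 : ℝ) ^ L) ^ ((Finset.univ : Finset (K →ₐ[ℚ] ℂ)).erase φ).card ≤
        2 ^ (finrank ℚ K * L) := by
      rw [← pow_mul]
      apply pow_le_pow_right₀ (by norm_num)
      rw [mul_comm]
      apply Nat.mul_le_mul_right
      rw [← hcard]
      exact Finset.card_le_card (Finset.erase_subset _ _)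
    have h4 : 1 ≤ ‖φ (x : K)‖ * 2 ^ (finrank ℚ K * L) :=
      h1.trans (mul_le_mul_of_nonneg_left (h2.trans h3) hpos.le)
    have h5 : (2 : ℝ) ^ (((-((finrank ℚ K * L : ℕ) : ℤ)) : ℤ) : ℝ) =
        (2 ^ (finrank ℚ K * L))⁻¹ := by
      rw [Int.cast_neg, Real.rpow_neg (by norm_num), Int.cast_natCast, Real.rpow_natCast]
    rw [h5, inv_le_iff_one_le_mul₀ (by positivity)]
    exact h4
  · unfold cell
    have h1 : (⌊Real.logb 2 ‖φ (x : K)‖⌋ : ℝ) ≤ L := by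
      refine (Int.floor_le _).trans ?_
      rw [Real.logb_le_iff_le_rpow (by norm_num) hpos, Real.rpow_natCast]
      exact hle φ
    exact_mod_cast h1

lemma cell_fibre (x₀ : 𝓞 K) (h0 : x₀ ≠ 0) (T : Finset (𝓞 K))
    (hT : ∀ y ∈ T, Ideal.span {y} = Ideal.span {x₀} ∧ cell y = cell x₀) :
    T.card ≤ 5 ^ finrank ℚ K := by
  have h1 : ∀ y ∈ T, ∃ u : 𝓞 K, x₀ * u = y ∧ u ∈ small K 2 := by
    intro y hy
    obtain ⟨h2, h3⟩ := hT y hy
    obtain ⟨u, hu⟩ := (Ideal.span_singleton_eq_span_singleton.mp h2).symm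
    refine ⟨u, hu, fun φ => ?_⟩
    let ψ : K →ₐ[ℚ] ℂ := φ.toRatAlgHom
    have h4 := congrFun h3 ψ
    have hy0 : y ≠ 0 := by
      rintro rfl
      have := mul_eq_zero.mp hu
      rcases this with h | h
      · exact h0 h
      · exact u.ne_zero h
    have hp0 := norm_pos' x₀ h0 ψ
    have hpy := norm_pos' y hy0 ψ
    have h5 : ‖ψ (y : K)‖ = ‖ψ (x₀ : K)‖ * ‖ψ ((u : 𝓞 K) : K)‖ := by
      rw [← norm_mul, ← map_mul]
      congr 2
      rw [← hu]
      rfl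
    have h6 : ‖ψ ((u : 𝓞 K) : K)‖ = ‖ψ (y : K)‖ / ‖ψ (x₀ : K)‖ := by
      rw [h5]
      field_simp
    have h7 : Real.logb 2 ‖ψ (y : K)‖ < Real.logb 2 ‖ψ (x₀ : K)‖ + 1 := by
      have e1 := Int.lt_floor_add_one (Real.logb 2 ‖ψ (y : K)‖)
      have e2 := Int.floor_le (Real.logb 2 ‖ψ (x₀ : K)‖)
      unfold cell at h4
      rw [h4] at e1
      linarith
    have h8 : ‖ψ (y : K)‖ < ‖ψ (x₀ : K)‖ * 2 := by
      rw [Real.logb_lt_iff_lt_rpow (by norm_num) hpy, Real.rpow_add (by norm_num),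
        Real.rpow_logb (by norm_num) (by norm_num) hp0, Real.rpow_one] at h7
      exact h7
    have h9 : ‖ψ ((u : 𝓞 K) : K)‖ ≤ 2 := by
      rw [h6, div_le_iff₀ hp0]
      linarith
    exact h9
  choose! u hu using h1
  have h2 : T.card ≤ (small K 2).ncard := by
    rw [← Set.ncard_coe_finset]
    refine Set.ncard_le_ncard_of_injOn u (fun y hy => (hu y hy).2) ?_
      (small_finite _ (by norm_num))
    intro y hy z hz hyz
    rw [← (hu y hy).1, ← (hu z hz).1, hyz]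
  have h3 := small_ncard (K := K) 2 (by norm_num)
  have h4 : (T.card : ℝ) ≤ (5 : ℝ) ^ finrank ℚ K := by
    refine le_trans (by exact_mod_cast h2) (h3.trans (le_of_eq ?_))
    norm_num
  exact_mod_cast h4

lemma span_mem_IS (w : ℕ) (B : ℝ) (S : Finset (Ideal (𝓞 K)))
    (hS : ∀ P : Ideal (𝓞 K), P ∈ S ↔ P.IsPrime ∧ P ≠ ⊥ ∧ (w : 𝓞 K) ∈ P) (x : 𝓞 K)
    (hx : x ∈ SU K w B) : Ideal.span {x} ∈ IS S (B ^ finrank ℚ K) := by
  obtain ⟨h0, h1, h2⟩ := hx
  refine ⟨?_, ?_, ?_⟩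
  · rw [Ne, Ideal.span_singleton_eq_bot]
    exact h0
  · intro P hP hxP
    rw [Ideal.span_singleton_le_iff_mem] at hxP
    rw [hS]
    refine ⟨hP, ?_, h2 P hP hxP⟩
    rintro rfl
    exact h0 ((Submodule.mem_bot _).mp hxP)
  · rw [Ideal.absNorm_span_singleton, abs_norm_eq, ← AlgHom.card ℚ K ℂ, ← Finset.card_univ,
      ← Finset.prod_const]
    exact Finset.prod_le_prod (fun ψ _ => norm_nonneg _) fun ψ _ => small_algHom h1 ψ

lemma su_finite (w : ℕ) (B : ℝ) (hB : 0 ≤ B) : (SU K w B).Finite :=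
  (small_finite B hB).subset fun _ h => h.2.1

open Classical in
lemma su_card (w : ℕ) (B : ℝ) (hB : 1 ≤ B) (L : ℕ) (hL : B ≤ 2 ^ L) (η : ℝ)
    (hη : 0 < η) (S : Finset (Ideal (𝓞 K)))
    (hS : ∀ P : Ideal (𝓞 K), P ∈ S ↔ P.IsPrime ∧ P ≠ ⊥ ∧ (w : 𝓞 K) ∈ P) :
    ((SU K w B).ncard : ℝ) ≤ 5 ^ finrank ℚ K * ((((finrank ℚ K : ℝ) + 1) * L + 1) ^ finrank ℚ K *
      ((B ^ finrank ℚ K) ^ η * ∏ P ∈ S, ef η P)) := by
  have hfin := su_finite (K := K) w B (by linarith)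
  obtain ⟨f1, c1⟩ := is_card η hη S (fun P hP => ⟨((hS P).mp hP).1, ((hS P).mp hP).2.1⟩)
    (B ^ finrank ℚ K) (by positivity)
  set cells := Fintype.piFinset fun _ : K →ₐ[ℚ] ℂ =>
    Finset.Icc (-((finrank ℚ K * L : ℕ) : ℤ)) (L : ℤ) with hcells
  have h1 := Finset.card_le_mul_card_image_of_maps_to
    (f := fun x : 𝓞 K => (Ideal.span {x}, cell x)) (s := hfin.toFinset)
    (t := f1.toFinset ×ˢ cells) (by
      intro x hx
      rw [Set.Finite.mem_toFinset] at hx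
      rw [Finset.mem_product, Set.Finite.mem_toFinset]
      exact ⟨span_mem_IS w B S hS x hx, cell_mem B L hL x hx.1 hx.2.1⟩)
    (5 ^ finrank ℚ K) (by
      intro b _
      rcases Finset.eq_empty_or_nonempty
        (Finset.filter (fun a : 𝓞 K => (Ideal.span {a}, cell a) = b) hfin.toFinset) with h | h
      · rw [h, Finset.card_empty]
        exact Nat.zero_le _
      · obtain ⟨x₀, hx₀⟩ := h
        rw [Finset.mem_filter, Set.Finite.mem_toFinset] at hx₀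
        refine cell_fibre x₀ hx₀.1.1 _ fun y hy => ?_
        rw [Finset.mem_filter] at hy
        have h2 := hy.2.trans hx₀.2.symm
        exact ⟨(Prod.ext_iff.mp h2).1, (Prod.ext_iff.mp h2).2⟩)
  rw [Finset.card_product, ← Set.ncard_eq_toFinset_card _ hfin,
    ← Set.ncard_eq_toFinset_card _ f1] at h1
  have h2 : (cells.card : ℝ) = (((finrank ℚ K : ℝ) + 1) * L + 1) ^ finrank ℚ K := by
    rw [hcells, Fintype.card_piFinset, Finset.prod_const, Finset.card_univ, AlgHom.card,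
      Int.card_Icc]
    have h3 : ((L : ℤ) + 1 - -((finrank ℚ K * L : ℕ) : ℤ)).toNat =
        (finrank ℚ K + 1) * L + 1 := by
      have : (L : ℤ) + 1 - -((finrank ℚ K * L : ℕ) : ℤ) =
          (((finrank ℚ K + 1) * L + 1 : ℕ) : ℤ) := by
        push_cast
        ring
      rw [this, Int.toNat_natCast]
    rw [h3]
    push_cast
    ring
  have h3 : ((SU K w B).ncard : ℝ) ≤
      5 ^ finrank ℚ K * (((IS S (B ^ finrank ℚ K)).ncard : ℝ) * (cells.card : ℝ)) := by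
    exact_mod_cast h1
  refine h3.trans ?_
  rw [h2]
  have h4 : (0 : ℝ) ≤ (((finrank ℚ K : ℝ) + 1) * L + 1) ^ finrank ℚ K := by positivity
  have h5 := mul_le_mul_of_nonneg_right c1 h4
  have h6 : (0 : ℝ) ≤ 5 ^ finrank ℚ K := by positivity
  have h7 := mul_le_mul_of_nonneg_left h5 h6
  refine h7.trans (le_of_eq ?_)
  ring

end

/-- The number of algebraic integers with small conjugates and prescribed prime divisors,
uniformly in the number field. -/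
theorem su_bound (N : ℕ) (ε : ℝ) (hε : 0 < ε) : ∃ C : ℝ, 0 < C ∧
    ∀ (K : Type) [Field K] [NumberField K], finrank ℚ K ≤ N → ∀ w : ℕ, 1 ≤ w →
    ∀ B : ℝ, 1 ≤ B → ((SU K w B).ncard : ℝ) ≤ C * ((w : ℝ) * B) ^ ε := by
  classical
  set s : ℝ := ε / (2 * (N + 1)) with hs
  have hs0 : 0 < s := by positivity
  have hsN : s * N ≤ ε / 2 := by
    rw [hs, div_mul_eq_mul_div, div_le_div_iff₀ (by positivity) (by norm_num)]
    nlinarith
  obtain ⟨C₁, hC₁, h1⟩ := ef_prod N s ε hs0 hε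
  have hlog2 : 0 < Real.log 2 := Real.log_pos (by norm_num)
  set c : ℝ := ((N : ℝ) + 1) * (1 / (s * Real.log 2) + 1) + 1 with hc
  have hc1 : 1 ≤ c := by
    rw [hc]
    have : 0 ≤ ((N : ℝ) + 1) * (1 / (s * Real.log 2) + 1) := by positivity
    linarith
  refine ⟨5 ^ N * c ^ N * C₁, by positivity, fun K _ _ hK w hw B hB => ?_⟩
  have hw1 : (1 : ℝ) ≤ w := by exact_mod_cast hw
  have hB0 : 0 < B := by linarith
  have hwne : Ideal.span {(w : 𝓞 K)} ≠ ⊥ := by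
    rw [Ne, Ideal.span_singleton_eq_bot]
    exact_mod_cast (by omega : w ≠ 0)
  set S : Finset (Ideal (𝓞 K)) :=
    (UniqueFactorizationMonoid.normalizedFactors (Ideal.span {(w : 𝓞 K)})).toFinset with hSdef
  have hS : ∀ P : Ideal (𝓞 K), P ∈ S ↔ P.IsPrime ∧ P ≠ ⊥ ∧ (w : 𝓞 K) ∈ P := by
    intro P
    rw [hSdef, Multiset.mem_toFinset, Ideal.mem_normalizedFactors_iff hwne,
      Ideal.span_singleton_le_iff_mem]
    constructor
    · rintro ⟨h2, h3⟩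
      refine ⟨h2, ?_, h3⟩
      rintro rfl
      apply hwne
      rw [Ideal.span_singleton_eq_bot]
      exact (Submodule.mem_bot _).mp h3
    · rintro ⟨h2, _, h3⟩
      exact ⟨h2, h3⟩
  set L : ℕ := ⌈Real.logb 2 B⌉₊ with hL
  have hlogB : 0 ≤ Real.logb 2 B := Real.logb_nonneg (by norm_num) hB
  have hBL : B ≤ 2 ^ L := by
    rw [← Real.rpow_natCast, ← Real.logb_le_iff_le_rpow (by norm_num) hB0]
    exact Nat.le_ceil _
  have hL1 : (L : ℝ) ≤ Real.logb 2 B + 1 := (Nat.ceil_lt_add_one hlogB).le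
  have hBs : 1 ≤ B ^ s := Real.one_le_rpow hB hs0.le
  have hL2 : (L : ℝ) ≤ (1 / (s * Real.log 2) + 1) * B ^ s := by
    have h2 := Real.log_le_rpow_div hB0.le hs0
    have h3 : Real.logb 2 B ≤ 1 / (s * Real.log 2) * B ^ s := by
      rw [Real.logb, div_le_iff₀ hlog2]
      refine h2.trans (le_of_eq ?_)
      field_simp
    nlinarith
  have h2 := su_card (K := K) w B hB L hBL s hs0 S hS
  have h3 := h1 K hK w hw S (fun P hP => (hS P).mp hP)
  set n := finrank ℚ K with hn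
  have hnN : (n : ℝ) ≤ N := by exact_mod_cast hK
  have e1 : (5 : ℝ) ^ n ≤ 5 ^ N := pow_le_pow_right₀ (by norm_num) hK
  have e2 : (((n : ℝ) + 1) * L + 1) ^ n ≤ c ^ N * B ^ (ε / 2) := by
    have h4 : ((n : ℝ) + 1) * L + 1 ≤ c * B ^ s := by
      have h5 : ((n : ℝ) + 1) * L ≤ ((N : ℝ) + 1) * ((1 / (s * Real.log 2) + 1) * B ^ s) := by
        gcongr
      rw [hc]
      nlinarith
    have h6 : 1 ≤ ((n : ℝ) + 1) * L + 1 := by
      have : 0 ≤ ((n : ℝ) + 1) * L := by positivity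
      linarith
    calc (((n : ℝ) + 1) * L + 1) ^ n ≤ (((n : ℝ) + 1) * L + 1) ^ N :=
          pow_le_pow_right₀ h6 hK
      _ ≤ (c * B ^ s) ^ N := by gcongr
      _ = c ^ N * B ^ (s * N) := by
          rw [mul_pow, ← Real.rpow_natCast (B ^ s), ← Real.rpow_mul hB0.le]
      _ ≤ c ^ N * B ^ (ε / 2) := by
          have := Real.rpow_le_rpow_of_exponent_le hB hsN
          gcongr
  have e3 : (B ^ n) ^ s ≤ B ^ (ε / 2) := by
    rw [← Real.rpow_natCast, ← Real.rpow_mul hB0.le]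
    apply Real.rpow_le_rpow_of_exponent_le hB
    nlinarith
  have hprod : (0 : ℝ) ≤ ∏ P ∈ S, ef s P := Finset.prod_nonneg fun P hP =>
    (ef_pos hs0 P ((hS P).mp hP).1 ((hS P).mp hP).2.1).le
  refine h2.trans ?_
  have g1 : (B ^ n) ^ s * ∏ P ∈ S, ef s P ≤ B ^ (ε / 2) * (C₁ * (w : ℝ) ^ ε) :=
    mul_le_mul e3 h3 hprod (by positivity)
  have g0 : (0 : ℝ) ≤ (B ^ n) ^ s * ∏ P ∈ S, ef s P := mul_nonneg (by positivity) hprod
  have g2 : (((n : ℝ) + 1) * L + 1) ^ n * ((B ^ n) ^ s * ∏ P ∈ S, ef s P) ≤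
      (c ^ N * B ^ (ε / 2)) * (B ^ (ε / 2) * (C₁ * (w : ℝ) ^ ε)) :=
    mul_le_mul e2 g1 g0 (by positivity)
  have g3 : (0 : ℝ) ≤ (((n : ℝ) + 1) * L + 1) ^ n * ((B ^ n) ^ s * ∏ P ∈ S, ef s P) :=
    mul_nonneg (by positivity) g0
  have g4 := mul_le_mul e1 g2 g3 (by positivity)
  refine g4.trans (le_of_eq ?_)
  have g5 : B ^ ε = B ^ (ε / 2) * B ^ (ε / 2) := by
    rw [← Real.rpow_add hB0]
    congr 1
    ring
  rw [Real.mul_rpow (by linarith) hB0.le, g5]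
  ring

end Pool.Agent.FT
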